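import Mathlib

/-!
# Pairs of abc-triples with the same radical: the linear algebra

Two triples `m`, `n` with the same radical; `m i = A i * x i`, `n i = B i * x i`.
`uniq_diag`: if `m ≠ n`, then the numbers `A i`, `B i` determine the `x i`.
`caseB`: the common divisor `D` and its consequences.
-/

set_option autoImplicit false

namespace Pool.Agent.Lib.AbcD

/-- Proportional coprime vectors are equal. -/
theorem eq_of_prop {x y : Fin 3 → ℕ}
    (cx : ∀ i j, i ≠ j → (x i).Coprime (x j)) (cy : ∀ i j, i ≠ j → (y i).Coprime (y j))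
    (h : ∀ i j, x i * y j = x j * y i) : x = y := by
  have key : ∀ i, x i = y i := by
    intro i
    obtain ⟨j, hj⟩ : ∃ j, i ≠ j := by
      rcases eq_or_ne i 0 with h | h
      · exact ⟨1, by rw [h]; decide⟩
      · exact ⟨0, h⟩
    have h1 : x i ∣ y i := by
      have h2 : x i ∣ x j * y i := ⟨y j, (h i j).symm⟩
      exact (cx i j hj).dvd_of_dvd_mul_left h2
    have h3 : y i ∣ x i := by
      have h2 : y i ∣ y j * x i := ⟨x j, by rw [mul_comm, h i j, mul_comm]⟩
      exact (cy i j hj).dvd_of_dvd_mul_left h2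
    exact Nat.dvd_antisymm h1 h3
  exact funext key

theorem prop_of_forms {L L' x y : Fin 3 → ℤ} (hx : ∀ i, 0 < x i)
    (h1 : L 0 * x 0 + L 1 * x 1 + L 2 * x 2 = 0) (h2 : L 0 * y 0 + L 1 * y 1 + L 2 * y 2 = 0)
    (h3 : L' 0 * x 0 + L' 1 * x 1 + L' 2 * x 2 = 0)
    (h4 : L' 0 * y 0 + L' 1 * y 1 + L' 2 * y 2 = 0)
    (hne : ¬ ∀ i j, x i * y j = x j * y i) : ∀ i j, L i * L' j = L j * L' i := by
  obtain ⟨w, hw⟩ : ∃ w : Fin 3 → ℤ, w = ![L 1 * L' 2 - L 2 * L' 1, L 2 * L' 0 - L 0 * L' 2,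
    L 0 * L' 1 - L 1 * L' 0] := ⟨_, rfl⟩
  have w0 : w 0 = L 1 * L' 2 - L 2 * L' 1 := by rw [hw]; rfl
  have w1 : w 1 = L 2 * L' 0 - L 0 * L' 2 := by rw [hw]; rfl
  have w2 : w 2 = L 0 * L' 1 - L 1 * L' 0 := by rw [hw]; rfl
  have a01 : w 0 * x 1 = w 1 * x 0 := by
    rw [w0, w1]
    linear_combination L' 2 * h1 - L 2 * h3
  have a02 : w 0 * x 2 = w 2 * x 0 := by
    rw [w0, w2]
    linear_combination L 1 * h3 - L' 1 * h1
  have a12 : w 1 * x 2 = w 2 * x 1 := by
    rw [w1, w2]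
    linear_combination L' 0 * h1 - L 0 * h3
  have b01 : w 0 * y 1 = w 1 * y 0 := by
    rw [w0, w1]
    linear_combination L' 2 * h2 - L 2 * h4
  have b02 : w 0 * y 2 = w 2 * y 0 := by
    rw [w0, w2]
    linear_combination L 1 * h4 - L' 1 * h2
  have b12 : w 1 * y 2 = w 2 * y 1 := by
    rw [w1, w2]
    linear_combination L' 0 * h2 - L 0 * h4
  have z0 : w 0 = 0 := by
    by_contra hz
    apply hne
    have c1 : x 0 * y 1 = x 1 * y 0 := by
      apply mul_left_cancel₀ hz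
      linear_combination x 0 * b01 - y 0 * a01
    have c2 : x 0 * y 2 = x 2 * y 0 := by
      apply mul_left_cancel₀ hz
      linear_combination x 0 * b02 - y 0 * a02
    have c3 : x 1 * y 2 = x 2 * y 1 := by
      apply mul_left_cancel₀ (hx 0).ne'
      linear_combination x 1 * c2 - x 2 * c1
    intro i j
    fin_cases i <;> fin_cases j <;> simp <;> first | rfl | linarith
  have z1 : w 1 = 0 := by
    rw [z0, zero_mul] at a01
    rcases mul_eq_zero.1 a01.symm with h | h
    · exact h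
    · exact absurd h (hx 0).ne'
  have z2 : w 2 = 0 := by
    rw [z0, zero_mul] at a02
    rcases mul_eq_zero.1 a02.symm with h | h
    · exact h
    · exact absurd h (hx 0).ne'
  rw [w0] at z0
  rw [w1] at z1
  rw [w2] at z2
  have d1 : L 1 * L' 2 = L 2 * L' 1 := by linarith
  have d2 : L 0 * L' 2 = L 2 * L' 0 := by linarith
  have d3 : L 0 * L' 1 = L 1 * L' 0 := by linarith
  intro i j
  fin_cases i <;> fin_cases j <;> simp <;> first | rfl | linarith

/-- The entries of a permutation are determined by the others. -/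
theorem uniq_diag {A B x y : Fin 3 → ℕ} {s s' : Fin 3 → ℤ}
    (hs : ∀ i, (s i).natAbs = 1) (hs' : ∀ i, (s' i).natAbs = 1)
    (hx : ∀ i, 0 < x i)
    (h1 : s 0 * (A 0 * x 0 : ℕ) + s 1 * (A 1 * x 1 : ℕ) + s 2 * (A 2 * x 2 : ℕ) = 0)
    (h2 : s 0 * (A 0 * y 0 : ℕ) + s 1 * (A 1 * y 1 : ℕ) + s 2 * (A 2 * y 2 : ℕ) = 0)
    (h3 : s' 0 * (B 0 * x 0 : ℕ) + s' 1 * (B 1 * x 1 : ℕ) + s' 2 * (B 2 * x 2 : ℕ) = 0)
    (h4 : s' 0 * (B 0 * y 0 : ℕ) + s' 1 * (B 1 * y 1 : ℕ) + s' 2 * (B 2 * y 2 : ℕ) = 0)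
    (c1 : ∀ i j, i ≠ j → (A i * x i).Coprime (A j * x j))
    (c2 : ∀ i j, i ≠ j → (B i * x i).Coprime (B j * x j))
    (c3 : ∀ i j, i ≠ j → (A i * y i).Coprime (A j * y j))
    (hne : ∃ i, A i * x i ≠ B i * x i) : x = y := by
  by_contra hxy
  have cx : ∀ i j, i ≠ j → (x i).Coprime (x j) := fun i j hij =>
    (c1 i j hij).coprime_mul_left.coprime_mul_left_right
  have cy : ∀ i j, i ≠ j → (y i).Coprime (y j) := fun i j hij =>
    (c3 i j hij).coprime_mul_left.coprime_mul_left_right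
  have hnp : ¬ ∀ i j, (fun i => (x i : ℤ)) i * (fun i => (y i : ℤ)) j =
      (fun i => (x i : ℤ)) j * (fun i => (y i : ℤ)) i := by
    intro h
    apply hxy
    apply eq_of_prop cx cy
    intro i j
    have := h i j
    simp only at this
    exact_mod_cast this
  have key := prop_of_forms (L := fun i => s i * A i) (L' := fun i => s' i * B i)
    (x := fun i => (x i : ℤ)) (y := fun i => (y i : ℤ)) (fun i => by exact_mod_cast hx i)
    (by push_cast at h1; linarith) (by push_cast at h2; linarith)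
    (by push_cast at h3; linarith) (by push_cast at h4; linarith) hnp
  have k2 : ∀ i j, A i * B j = A j * B i := by
    intro i j
    have h := congrArg Int.natAbs (key i j)
    simp only [Int.natAbs_mul, Int.natAbs_natCast, hs, hs', one_mul] at h
    exact h
  have k3 : (fun i => A i * x i) = (fun i => B i * x i) := by
    apply eq_of_prop c1 c2
    intro i j
    calc A i * x i * (B j * x j) = (A i * B j) * (x i * x j) := by ring
      _ = (A j * B i) * (x i * x j) := by rw [k2 i j]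
      _ = A j * x j * (B i * x i) := by ring
  obtain ⟨i, hi⟩ := hne
  exact hi (congrFun k3 i)

/-- The common divisor in case (B). -/
theorem exists_D {A B C A' B' C' x y z : ℤ} (hy : y ≠ 0) (hyz : IsCoprime y z)
    (h1 : A * x + B * y = C * z) (h2 : A' * x + B' * y = C' * z) :
    ∃ D : ℤ, D * y = A * C' - A' * C ∧ D * z = A * B' - A' * B := by
  have e : (A * C' - A' * C) * z = (A * B' - A' * B) * y := by
    linear_combination A' * h1 - A * h2
  have h3 : y ∣ A * C' - A' * C := by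
    apply hyz.dvd_of_dvd_mul_right
    rw [e]
    exact Dvd.intro_left _ rfl
  obtain ⟨D, hD⟩ := h3
  refine ⟨D, by rw [hD]; ring, ?_⟩
  apply mul_right_cancel₀ hy
  rw [← e, hD]
  ring

/-- A common divisor of `p q` and `p' q'` with `q`, `q'` coprime divides `p p'`. -/
theorem dvd_of_coprime {h p q p' q' : ℕ} (h1 : h ∣ p * q) (h2 : h ∣ p' * q')
    (hq : q.Coprime q') : h ∣ p * p' := by
  have h3 : h ∣ Nat.gcd (p * q) (p * (p' * q')) := Nat.dvd_gcd h1 (h2.mul_left p)
  rw [Nat.gcd_mul_left, Nat.Coprime.gcd_mul_right_cancel_right p' hq.symm] at h3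
  exact h3.trans (Nat.mul_dvd_mul_left p (Nat.gcd_dvd_right q p'))

/-- Uniqueness of `g` in case (B): from `D y = a - β g`, `0 ≤ y < G`, `β > G h`. -/
theorem uniq_g {D β a g g' y y' : ℤ} {G h : ℕ} (hD : D ≠ 0) (hβ : 0 < β)
    (h1 : D * y = a - β * g) (h2 : D * y' = a - β * g') (hy : 0 < y ∧ y ≤ G) (hy' : 0 < y' ∧ y' ≤ G)
    (hh : ∀ k : ℤ, k ∣ β → k ∣ D → k ≤ h) (hG : (G : ℤ) * h < β) : g = g' := by
  have e : D * (y - y') = β * (g' - g) := by linear_combination h1 - h2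
  obtain ⟨k, hk⟩ : ∃ k : ℤ, k = (Int.gcd D β : ℤ) := ⟨_, rfl⟩
  have hk1 : k ∣ D := by rw [hk]; exact Int.gcd_dvd_left _ _
  have hk2 : k ∣ β := by rw [hk]; exact Int.gcd_dvd_right _ _
  have hk0 : 0 < k := by
    rw [hk]
    exact_mod_cast Int.gcd_pos_of_ne_zero_left _ hD
  obtain ⟨D1, hD1⟩ := hk1
  obtain ⟨b1, hb1⟩ := hk2
  have hcop : IsCoprime D1 b1 := by
    rw [Int.isCoprime_iff_gcd_eq_one]
    have h3 : (Int.gcd D β : ℤ) * (Int.gcd D1 b1 : ℤ) = Int.gcd D β := by
      have h4 : Int.gcd (k * D1) (k * b1) = k.natAbs * Int.gcd D1 b1 := Int.gcd_mul_left _ _ _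
      rw [← hD1, ← hb1] at h4
      have h5 : k.natAbs = Int.gcd D β := by rw [hk]; rfl
      rw [h5] at h4
      exact_mod_cast h4.symm
    have h6 : (Int.gcd D β : ℤ) ≠ 0 := by rw [← hk]; exact hk0.ne'
    have h7 : (Int.gcd D1 b1 : ℤ) = 1 := by
      apply mul_left_cancel₀ h6
      rw [h3, mul_one]
    exact_mod_cast h7
  have e2 : D1 * (y - y') = b1 * (g' - g) := by
    apply mul_left_cancel₀ hk0.ne'
    rw [hD1, hb1] at e
    linear_combination e
  have h3 : b1 ∣ y - y' := by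
    apply hcop.symm.dvd_of_dvd_mul_left
    rw [e2]
    exact Dvd.intro _ rfl
  have hb0 : 0 < b1 := by
    by_contra hb
    push Not at hb
    have : k * b1 ≤ 0 := mul_nonpos_of_nonneg_of_nonpos hk0.le hb
    rw [← hb1] at this
    linarith
  have hkh : k ≤ h := hh k ⟨b1, hb1⟩ ⟨D1, hD1⟩
  have hb2 : (G : ℤ) < b1 := by
    by_contra hb
    push Not at hb
    have h5 : k * b1 ≤ h * G := mul_le_mul hkh hb hb0.le (by positivity)
    rw [← hb1] at h5
    linarith
  have h4 : y - y' = 0 := by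
    apply Int.eq_zero_of_abs_lt_dvd h3
    rw [abs_lt]
    constructor <;> linarith [hy.1, hy.2, hy'.1, hy'.2]
  rw [h4, mul_zero] at e
  have h5 : g' - g = 0 := by
    rcases mul_eq_zero.1 e.symm with h | h
    · exact absurd h hβ.ne'
    · exact h
  linarith

end Pool.Agent.Lib.AbcD
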