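import Mathlib
import Pool.Agent.Lib.AbcG.Inv
import Pool.Agent.Lib.AbcD.Alg

/-!
# Pairs of abc-triples with the same radical: the matrix of the common divisors

`gg m n i j = gcd (rad (m i)) (rad (n j))`. If the products of the radicals of `m` and of `n` are
equal, then `m i = uu m i * ∏_j gg m n i j` and `n j = uu n j * ∏_i gg m n i j`, `uu m i = m i / rad (m i)`.
-/

set_option autoImplicit false

open Finset

namespace Pool.Agent.Lib.AbcD

open Pool.Agent.Lib.AbcG

/-- The cofactor of the radical. -/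
def uu (m : Fin 3 → ℕ) (i : Fin 3) : ℕ := m i / rad (m i)

/-- The common divisors. -/
def gg (m n : Fin 3 → ℕ) (i j : Fin 3) : ℕ := Nat.gcd (rad (m i)) (rad (n j))

/-- Pairwise coprime positive numbers. -/
def PC (m : Fin 3 → ℕ) : Prop := (∀ i, 0 < m i) ∧ ∀ i j, i ≠ j → (m i).Coprime (m j)

/-- The product of the radicals. -/
def rr (m : Fin 3 → ℕ) : ℕ := rad (m 0) * rad (m 1) * rad (m 2)

theorem rad_coprime {m : Fin 3 → ℕ} (hm : PC m) {i j : Fin 3} (h : i ≠ j) :
    (rad (m i)).Coprime (rad (m j)) :=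
  ((hm.2 i j h).coprime_dvd_left (rad_dvd _)).coprime_dvd_right (rad_dvd _)

theorem rad_dvd_rr (m : Fin 3 → ℕ) (i : Fin 3) : rad (m i) ∣ rr m := by
  unfold rr
  fin_cases i
  · exact ⟨rad (m 1) * rad (m 2), by simp; ring⟩
  · exact ⟨rad (m 0) * rad (m 2), by simp; ring⟩
  · exact ⟨rad (m 0) * rad (m 1), by simp; ring⟩

theorem gg_symm (m n : Fin 3 → ℕ) (i j : Fin 3) : gg m n i j = gg n m j i := Nat.gcd_comm _ _

theorem gg_pos (m n : Fin 3 → ℕ) (i j : Fin 3) : 0 < gg m n i j :=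
  Nat.gcd_pos_of_pos_left _ (rad_pos _)

theorem rad_row {m n : Fin 3 → ℕ} (hn : PC n) (h : rr m = rr n) (i : Fin 3) :
    rad (m i) = gg m n i 0 * gg m n i 1 * gg m n i 2 := by
  have h1 : rad (m i) ∣ rad (n 0) * rad (n 1) * rad (n 2) := by
    have := rad_dvd_rr m i
    rw [h] at this
    exact this
  have h2 : Nat.gcd (rad (m i)) (rad (n 0) * rad (n 1) * rad (n 2)) = rad (m i) :=
    Nat.gcd_eq_left h1
  have c1 : (rad (n 0) * rad (n 1)).Coprime (rad (n 2)) :=
    Nat.Coprime.mul_left (rad_coprime hn (by decide)) (rad_coprime hn (by decide))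
  have c2 : (rad (n 0)).Coprime (rad (n 1)) := rad_coprime hn (by decide)
  rw [Nat.Coprime.gcd_mul _ c1, Nat.Coprime.gcd_mul _ c2] at h2
  exact h2.symm

theorem row {m n : Fin 3 → ℕ} (hn : PC n) (h : rr m = rr n) (i : Fin 3) :
    m i = uu m i * (gg m n i 0 * gg m n i 1 * gg m n i 2) := by
  rw [← rad_row hn h i]
  unfold uu
  exact (Nat.div_mul_cancel (rad_dvd _)).symm

theorem col {m n : Fin 3 → ℕ} (hm : PC m) (h : rr m = rr n) (j : Fin 3) :
    n j = uu n j * (gg m n 0 j * gg m n 1 j * gg m n 2 j) := by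
  have := row hm h.symm j
  rw [gg_symm n m j 0, gg_symm n m j 1, gg_symm n m j 2] at this
  exact this

theorem gg_coprime {m n : Fin 3 → ℕ} (hm : PC m) (hn : PC n) {i j k l : Fin 3}
    (h : i ≠ k ∨ j ≠ l) : (gg m n i j).Coprime (gg m n k l) := by
  rcases h with h | h
  · exact ((rad_coprime hm h).coprime_dvd_left (Nat.gcd_dvd_left _ _)).coprime_dvd_right
      (Nat.gcd_dvd_left _ _)
  · exact ((rad_coprime hn h).coprime_dvd_left (Nat.gcd_dvd_right _ _)).coprime_dvd_right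
      (Nat.gcd_dvd_right _ _)

theorem uu_pos {m : Fin 3 → ℕ} (hm : PC m) (i : Fin 3) : 0 < uu m i :=
  Nat.div_pos (Nat.le_of_dvd (hm.1 i) (rad_dvd _)) (rad_pos _)

theorem rr_eq {m n : Fin 3 → ℕ} (hn : PC n) (h : rr m = rr n) :
    rr m = (gg m n 0 0 * gg m n 0 1 * gg m n 0 2) * (gg m n 1 0 * gg m n 1 1 * gg m n 1 2) *
      (gg m n 2 0 * gg m n 2 1 * gg m n 2 2) := by
  rw [← rad_row hn h 0, ← rad_row hn h 1, ← rad_row hn h 2]
  rfl

/-- The off-diagonal entries. -/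
def off (m n : Fin 3 → ℕ) : Fin 6 → ℕ :=
  ![gg m n 0 1, gg m n 0 2, gg m n 1 0, gg m n 1 2, gg m n 2 0, gg m n 2 1]

/-- The code of a pair. -/
def code (p : (Fin 3 → ℕ) × (Fin 3 → ℕ)) : (Fin 3 → ℕ) × (Fin 3 → ℕ) × (Fin 6 → ℕ) :=
  (uu p.1, uu p.2, off p.1 p.2)

/-- The pairs: two relations with signs. -/
def Rel (s : Fin 3 → ℤ) (m : Fin 3 → ℕ) : Prop :=
  s 0 * (m 0 : ℤ) + s 1 * (m 1 : ℤ) + s 2 * (m 2 : ℤ) = 0

theorem code_inj {s s' : Fin 3 → ℤ} (hs : ∀ i, (s i).natAbs = 1) (hs' : ∀ i, (s' i).natAbs = 1)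
    {m n m' n' : Fin 3 → ℕ} (hm : PC m) (hn : PC n) (hm' : PC m') (hn' : PC n')
    (hr : rr m = rr n) (hr' : rr m' = rr n') (e1 : Rel s m) (e2 : Rel s' n) (e3 : Rel s m')
    (e4 : Rel s' n') (hne : m ≠ n) (hcode : code (m, n) = code (m', n')) : m = m' ∧ n = n' := by
  unfold code at hcode
  simp only [Prod.mk.injEq] at hcode
  obtain ⟨c1, c2, c3⟩ := hcode
  have o01 : gg m n 0 1 = gg m' n' 0 1 := congrFun c3 0
  have o02 : gg m n 0 2 = gg m' n' 0 2 := congrFun c3 1
  have o10 : gg m n 1 0 = gg m' n' 1 0 := congrFun c3 2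
  have o12 : gg m n 1 2 = gg m' n' 1 2 := congrFun c3 3
  have o20 : gg m n 2 0 = gg m' n' 2 0 := congrFun c3 4
  have o21 : gg m n 2 1 = gg m' n' 2 1 := congrFun c3 5
  obtain ⟨A, hA⟩ : ∃ A : Fin 3 → ℕ, A = ![uu m 0 * (gg m n 0 1 * gg m n 0 2),
    uu m 1 * (gg m n 1 0 * gg m n 1 2), uu m 2 * (gg m n 2 0 * gg m n 2 1)] := ⟨_, rfl⟩
  obtain ⟨B, hB⟩ : ∃ B : Fin 3 → ℕ, B = ![uu n 0 * (gg m n 1 0 * gg m n 2 0),
    uu n 1 * (gg m n 0 1 * gg m n 2 1), uu n 2 * (gg m n 0 2 * gg m n 1 2)] := ⟨_, rfl⟩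
  have A0 : A 0 = uu m 0 * (gg m n 0 1 * gg m n 0 2) := by rw [hA]; rfl
  have A1 : A 1 = uu m 1 * (gg m n 1 0 * gg m n 1 2) := by rw [hA]; rfl
  have A2 : A 2 = uu m 2 * (gg m n 2 0 * gg m n 2 1) := by rw [hA]; rfl
  have B0 : B 0 = uu n 0 * (gg m n 1 0 * gg m n 2 0) := by rw [hB]; rfl
  have B1 : B 1 = uu n 1 * (gg m n 0 1 * gg m n 2 1) := by rw [hB]; rfl
  have B2 : B 2 = uu n 2 * (gg m n 0 2 * gg m n 1 2) := by rw [hB]; rfl
  have mA : ∀ i, m i = A i * gg m n i i := by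
    intro i
    fin_cases i
    · show m 0 = A 0 * gg m n 0 0
      rw [A0]
      conv_lhs => rw [row hn hr 0]
      ring
    · show m 1 = A 1 * gg m n 1 1
      rw [A1]
      conv_lhs => rw [row hn hr 1]
      ring
    · show m 2 = A 2 * gg m n 2 2
      rw [A2]
      conv_lhs => rw [row hn hr 2]
      ring
  have nB : ∀ i, n i = B i * gg m n i i := by
    intro i
    fin_cases i
    · show n 0 = B 0 * gg m n 0 0
      rw [B0]
      conv_lhs => rw [col hm hr 0]
      ring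
    · show n 1 = B 1 * gg m n 1 1
      rw [B1]
      conv_lhs => rw [col hm hr 1]
      ring
    · show n 2 = B 2 * gg m n 2 2
      rw [B2]
      conv_lhs => rw [col hm hr 2]
      ring
  have mA' : ∀ i, m' i = A i * gg m' n' i i := by
    intro i
    fin_cases i
    · show m' 0 = A 0 * gg m' n' 0 0
      rw [A0, c1, o01, o02]
      conv_lhs => rw [row hn' hr' 0]
      ring
    · show m' 1 = A 1 * gg m' n' 1 1
      rw [A1, c1, o10, o12]
      conv_lhs => rw [row hn' hr' 1]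
      ring
    · show m' 2 = A 2 * gg m' n' 2 2
      rw [A2, c1, o20, o21]
      conv_lhs => rw [row hn' hr' 2]
      ring
  have nB' : ∀ i, n' i = B i * gg m' n' i i := by
    intro i
    fin_cases i
    · show n' 0 = B 0 * gg m' n' 0 0
      rw [B0, c2, o10, o20]
      conv_lhs => rw [col hm' hr' 0]
      ring
    · show n' 1 = B 1 * gg m' n' 1 1
      rw [B1, c2, o01, o21]
      conv_lhs => rw [col hm' hr' 1]
      ring
    · show n' 2 = B 2 * gg m' n' 2 2
      rw [B2, c2, o02, o12]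
      conv_lhs => rw [col hm' hr' 2]
      ring
  unfold Rel at e1 e2 e3 e4
  have key := uniq_diag (A := A) (B := B) (x := fun i => gg m n i i) (y := fun i => gg m' n' i i)
    (s := s) (s' := s') hs hs' (fun i => gg_pos m n i i)
    (by simp only [← mA]; exact e1) (by simp only [← mA']; exact e3)
    (by simp only [← nB]; exact e2) (by simp only [← nB']; exact e4)
    (by intro i j hij; simp only [← mA]; exact hm.2 i j hij)
    (by intro i j hij; simp only [← nB]; exact hn.2 i j hij)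
    (by intro i j hij; simp only [← mA']; exact hm'.2 i j hij)
    (by
      by_contra hcon
      push Not at hcon
      apply hne
      funext i
      rw [mA i, nB i]
      exact hcon i)
  constructor
  · funext i
    rw [mA i, mA' i]
    congr 1
    exact congrFun key i
  · funext i
    rw [nB i, nB' i]
    congr 1
    exact congrFun key i

end Pool.Agent.Lib.AbcD
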