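import Mathlib
import Pool.Agent.Lib.AbcD.Mat

/-!
# Pairs of abc-triples with the same radical: case (A)
-/

set_option autoImplicit false

open Finset

namespace Pool.Agent.Lib.AbcD

/-- Tuples of positive integers with product at most `Z`. -/
theorem tup_card {k : ℕ} (Z T : ℕ) (S : Finset (Fin k → ℕ))
    (hS : ∀ f ∈ S, (∀ i, 1 ≤ f i) ∧ ∏ i, f i ≤ Z)
    (hT : ∀ n, 1 ≤ n → n ≤ Z → n.divisors.card ≤ T) : S.card ≤ T ^ k * Z := by
  classical
  have h1 : S.card ≤ T ^ k * (S.image (fun f => ∏ i, f i)).card := by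
    apply Finset.card_le_mul_card_image
    intro n hn
    obtain ⟨f0, hf0, hn0⟩ := mem_image.1 hn
    have hn1 : 1 ≤ n := by
      rw [← hn0]
      exact Nat.one_le_iff_ne_zero.2 (Finset.prod_ne_zero_iff.2
        (fun i _ => by have := (hS f0 hf0).1 i; omega))
    have hn2 : n ≤ Z := by
      rw [← hn0]
      exact (hS f0 hf0).2
    calc (S.filter (fun f => ∏ i, f i = n)).card
        ≤ (Fintype.piFinset (fun _ : Fin k => n.divisors)).card := by
          apply card_le_card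
          intro f hf
          rw [mem_filter] at hf
          rw [Fintype.mem_piFinset]
          intro i
          rw [Nat.mem_divisors]
          exact ⟨by rw [← hf.2]; exact Finset.dvd_prod_of_mem _ (mem_univ i), by omega⟩
      _ = n.divisors.card ^ k := by rw [Fintype.card_piFinset]; simp
      _ ≤ T ^ k := Nat.pow_le_pow_left (hT n hn1 hn2) k
  have h2 : (S.image (fun f => ∏ i, f i)).card ≤ Z := by
    calc (S.image (fun f => ∏ i, f i)).card ≤ (Icc 1 Z).card := by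
          apply card_le_card
          intro n hn
          obtain ⟨f0, hf0, hn0⟩ := mem_image.1 hn
          rw [mem_Icc, ← hn0]
          exact ⟨Nat.one_le_iff_ne_zero.2 (Finset.prod_ne_zero_iff.2
            (fun i _ => by have := (hS f0 hf0).1 i; omega)), (hS f0 hf0).2⟩
      _ = Z := by simp
  exact h1.trans (Nat.mul_le_mul_left _ h2)

/-- A pair of different solutions with the same radical and small cofactors. -/
def Pair (s s' : Fin 3 → ℤ) (W : ℕ) (p : (Fin 3 → ℕ) × (Fin 3 → ℕ)) : Prop :=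
  PC p.1 ∧ PC p.2 ∧ rr p.1 = rr p.2 ∧ Rel s p.1 ∧ Rel s' p.2 ∧ p.1 ≠ p.2 ∧
    (∀ i, uu p.1 i ≤ W) ∧ ∀ i, uu p.2 i ≤ W

/-- The box of the cofactors. -/
def ubox (W : ℕ) : Finset (Fin 3 → ℕ) := Fintype.piFinset (fun _ => Icc 1 W)

theorem ubox_card (W : ℕ) : (ubox W).card = W ^ 3 := by
  unfold ubox
  rw [Fintype.card_piFinset]
  simp

theorem mem_ubox {W : ℕ} {m : Fin 3 → ℕ} (hm : PC m) (h : ∀ i, uu m i ≤ W) : uu m ∈ ubox W := by
  unfold ubox
  rw [Fintype.mem_piFinset]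
  intro i
  rw [mem_Icc]
  exact ⟨uu_pos hm i, h i⟩

theorem off_pos (m n : Fin 3 → ℕ) (i : Fin 6) : 1 ≤ off m n i := by
  unfold off
  fin_cases i <;> exact gg_pos _ _ _ _

theorem caseA {s s' : Fin 3 → ℤ} (hs : ∀ i, (s i).natAbs = 1) (hs' : ∀ i, (s' i).natAbs = 1)
    (W Z T : ℕ) (S : Finset ((Fin 3 → ℕ) × (Fin 3 → ℕ)))
    (hS : ∀ p ∈ S, Pair s s' W p ∧ ∏ i, off p.1 p.2 i ≤ Z)
    (hT : ∀ n, 1 ≤ n → n ≤ Z → n.divisors.card ≤ T) : S.card ≤ W ^ 3 * (W ^ 3 * (T ^ 6 * Z)) := by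
  classical
  have hinj : Set.InjOn code (S : Set ((Fin 3 → ℕ) × (Fin 3 → ℕ))) := by
    rintro ⟨m, n⟩ hp ⟨m', n'⟩ hq h
    obtain ⟨⟨a1, a2, a3, a4, a5, a6, a7, a8⟩, a9⟩ := hS _ (Finset.mem_coe.1 hp)
    obtain ⟨⟨b1, b2, b3, b4, b5, b6, b7, b8⟩, b9⟩ := hS _ (Finset.mem_coe.1 hq)
    obtain ⟨e1, e2⟩ := code_inj hs hs' a1 a2 b1 b2 a3 b3 a4 a5 b4 b5 a6 h
    exact Prod.ext e1 e2
  rw [← card_image_of_injOn hinj]
  have hsub : S.image code ⊆ ubox W ×ˢ (ubox W ×ˢ S.image (fun p => off p.1 p.2)) := by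
    intro c hc
    obtain ⟨p, hp, rfl⟩ := mem_image.1 hc
    obtain ⟨⟨a1, a2, a3, a4, a5, a6, a7, a8⟩, a9⟩ := hS _ hp
    rw [mem_product, mem_product]
    exact ⟨mem_ubox a1 a7, mem_ubox a2 a8, mem_image_of_mem _ hp⟩
  refine (card_le_card hsub).trans ?_
  rw [card_product, card_product, ubox_card]
  refine Nat.mul_le_mul_left _ (Nat.mul_le_mul_left _ ?_)
  apply tup_card Z T
  · intro f hf
    obtain ⟨p, hp, rfl⟩ := mem_image.1 hf
    exact ⟨off_pos _ _, (hS p hp).2⟩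
  · exact hT

end Pool.Agent.Lib.AbcD
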