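import Mathlib
import Pool.Agent.Lib.AbcD.Tup

/-!
# Pairs of abc-triples with the same radical: case (B)

All nine common divisors lie in `[H, G]`.
-/

set_option autoImplicit false

open Finset

namespace Pool.Agent.Lib.AbcD

/-- The signs of an abc-triple. -/
def sg : Fin 3 → ℤ := ![1, 1, -1]

/-- The number whose divisor is the common divisor `D`. -/
def Del (u v : Fin 3 → ℕ) (f : Fin 5 → ℕ) : ℤ :=
  (u 0 * v 2 * f 0 * f 1 ^ 2 : ℤ) * (u 0 * v 1 * f 0 ^ 2 * f 1) -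
    (v 0 * u 2 * f 2 * f 3 ^ 2) * (v 0 * u 1 * f 2 ^ 2 * f 3)

/-- Five of the common divisors. -/
def five (m n : Fin 3 → ℕ) : Fin 5 → ℕ :=
  ![gg m n 0 1, gg m n 0 2, gg m n 1 0, gg m n 2 0, gg m n 1 2]

theorem rel_eq {m n : Fin 3 → ℕ} (hn : PC n) (hr : rr m = rr n) (h : Rel sg m) :
    ((uu m 0 * gg m n 0 1 * gg m n 0 2 : ℕ) : ℤ) * (gg m n 0 0 : ℕ) +
      ((uu m 1 * gg m n 1 0 * gg m n 1 2 : ℕ) : ℤ) * (gg m n 1 1 : ℕ) =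
      ((uu m 2 * gg m n 2 0 * gg m n 2 1 : ℕ) : ℤ) * (gg m n 2 2 : ℕ) := by
  unfold Rel sg at h
  have e0 := row hn hr 0
  have e1 := row hn hr 1
  have e2 := row hn hr 2
  have h' : (m 0 : ℤ) + m 1 = m 2 := by
    simp at h
    linarith
  have f0 : (m 0 : ℤ) = (uu m 0 * (gg m n 0 0 * gg m n 0 1 * gg m n 0 2) : ℕ) := by
    exact_mod_cast e0
  have f1 : (m 1 : ℤ) = (uu m 1 * (gg m n 1 0 * gg m n 1 1 * gg m n 1 2) : ℕ) := by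
    exact_mod_cast e1
  have f2 : (m 2 : ℤ) = (uu m 2 * (gg m n 2 0 * gg m n 2 1 * gg m n 2 2) : ℕ) := by
    exact_mod_cast e2
  rw [f0, f1, f2] at h'
  push_cast at h' ⊢
  linear_combination h'

theorem rel_eq' {m n : Fin 3 → ℕ} (hm : PC m) (hr : rr m = rr n) (h : Rel sg n) :
    ((uu n 0 * gg m n 1 0 * gg m n 2 0 : ℕ) : ℤ) * (gg m n 0 0 : ℕ) +
      ((uu n 1 * gg m n 0 1 * gg m n 2 1 : ℕ) : ℤ) * (gg m n 1 1 : ℕ) =
      ((uu n 2 * gg m n 0 2 * gg m n 1 2 : ℕ) : ℤ) * (gg m n 2 2 : ℕ) := by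
  have := rel_eq hm hr.symm h
  simp only [gg_symm n m] at this
  exact this

/-- The common divisor `D`. -/
theorem exists_D' {m n : Fin 3 → ℕ} (hm : PC m) (hn : PC n) (hr : rr m = rr n)
    (h1 : Rel sg m) (h2 : Rel sg n) : ∃ D : ℤ,
      D * (gg m n 1 1 : ℕ) = ((uu m 0 * uu n 2 * gg m n 0 1 * gg m n 0 2 ^ 2 : ℕ) : ℤ) *
        (gg m n 1 2 : ℕ) - ((uu n 0 * uu m 2 * gg m n 1 0 * gg m n 2 0 ^ 2 : ℕ) : ℤ) *
        (gg m n 2 1 : ℕ) ∧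
      D * (gg m n 2 2 : ℕ) = ((uu m 0 * uu n 1 * gg m n 0 1 ^ 2 * gg m n 0 2 : ℕ) : ℤ) *
        (gg m n 2 1 : ℕ) - ((uu n 0 * uu m 1 * gg m n 1 0 ^ 2 * gg m n 2 0 : ℕ) : ℤ) *
        (gg m n 1 2 : ℕ) := by
  have hy : ((gg m n 1 1 : ℕ) : ℤ) ≠ 0 := by exact_mod_cast (gg_pos m n 1 1).ne'
  have hyz : IsCoprime ((gg m n 1 1 : ℕ) : ℤ) ((gg m n 2 2 : ℕ) : ℤ) :=
    Nat.isCoprime_iff_coprime.2 (gg_coprime hm hn (Or.inl (by decide)))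
  obtain ⟨D, hD1, hD2⟩ := exists_D hy hyz (rel_eq hn hr h1) (rel_eq' hm hr h2)
  refine ⟨D, ?_, ?_⟩
  · rw [hD1]
    push_cast
    ring
  · rw [hD2]
    push_cast
    ring

/-- `D` divides `Del`. -/
theorem D_dvd {m n : Fin 3 → ℕ} (hm : PC m) (hn : PC n) {D : ℤ}
    (h1 : D * (gg m n 1 1 : ℕ) = ((uu m 0 * uu n 2 * gg m n 0 1 * gg m n 0 2 ^ 2 : ℕ) : ℤ) *
        (gg m n 1 2 : ℕ) - ((uu n 0 * uu m 2 * gg m n 1 0 * gg m n 2 0 ^ 2 : ℕ) : ℤ) *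
        (gg m n 2 1 : ℕ))
    (h2 : D * (gg m n 2 2 : ℕ) = ((uu m 0 * uu n 1 * gg m n 0 1 ^ 2 * gg m n 0 2 : ℕ) : ℤ) *
        (gg m n 2 1 : ℕ) - ((uu n 0 * uu m 1 * gg m n 1 0 ^ 2 * gg m n 2 0 : ℕ) : ℤ) *
        (gg m n 1 2 : ℕ)) : D ∣ Del (uu m) (uu n) (five m n) := by
  have e : Del (uu m) (uu n) (five m n) =
      ((uu m 0 * uu n 2 * gg m n 0 1 * gg m n 0 2 ^ 2 : ℕ) : ℤ) *
        ((uu m 0 * uu n 1 * gg m n 0 1 ^ 2 * gg m n 0 2 : ℕ) : ℤ) -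
      ((uu n 0 * uu m 2 * gg m n 1 0 * gg m n 2 0 ^ 2 : ℕ) : ℤ) *
        ((uu n 0 * uu m 1 * gg m n 1 0 ^ 2 * gg m n 2 0 : ℕ) : ℤ) := by
    unfold Del five
    simp only [Matrix.cons_val_zero, Matrix.cons_val_one, Matrix.cons_val]
    push_cast
    ring
  obtain ⟨α, hα⟩ : ∃ α : ℤ, α = ((uu m 0 * uu n 2 * gg m n 0 1 * gg m n 0 2 ^ 2 : ℕ) : ℤ) :=
    ⟨_, rfl⟩
  obtain ⟨β, hβ⟩ : ∃ β : ℤ, β = ((uu n 0 * uu m 2 * gg m n 1 0 * gg m n 2 0 ^ 2 : ℕ) : ℤ) :=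
    ⟨_, rfl⟩
  obtain ⟨γ, hγ⟩ : ∃ γ : ℤ, γ = ((uu m 0 * uu n 1 * gg m n 0 1 ^ 2 * gg m n 0 2 : ℕ) : ℤ) :=
    ⟨_, rfl⟩
  obtain ⟨ε, hε⟩ : ∃ ε : ℤ, ε = ((uu n 0 * uu m 1 * gg m n 1 0 ^ 2 * gg m n 2 0 : ℕ) : ℤ) :=
    ⟨_, rfl⟩
  rw [← hα, ← hβ] at h1
  rw [← hγ, ← hε] at h2
  rw [e, ← hα, ← hβ, ← hγ, ← hε]
  have hc : IsCoprime ((gg m n 1 2 : ℕ) : ℤ) ((gg m n 2 1 : ℕ) : ℤ) :=
    Nat.isCoprime_iff_coprime.2 (gg_coprime hm hn (Or.inl (by decide)))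
  have d1 : D ∣ (α * γ - β * ε) * (gg m n 1 2 : ℕ) :=
    ⟨γ * (gg m n 1 1 : ℕ) + β * (gg m n 2 2 : ℕ), by linear_combination -γ * h1 - β * h2⟩
  have d2 : D ∣ (α * γ - β * ε) * (gg m n 2 1 : ℕ) :=
    ⟨α * (gg m n 2 2 : ℕ) + ε * (gg m n 1 1 : ℕ), by linear_combination -α * h2 - ε * h1⟩
  obtain ⟨a, b, hab⟩ := hc
  have e2 : α * γ - β * ε = a * ((α * γ - β * ε) * (gg m n 1 2 : ℕ)) +
      b * ((α * γ - β * ε) * (gg m n 2 1 : ℕ)) := by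
    linear_combination -(α * γ - β * ε) * hab
  rw [e2]
  exact dvd_add (d1.mul_left _) (d2.mul_left _)

theorem Del_ne {m n : Fin 3 → ℕ} (hm : PC m) (hn : PC n) {W H : ℕ}
    (hu : ∀ i, uu m i ≤ W) (hv : ∀ i, uu n i ≤ W) (hH6 : W ^ 4 < H ^ 6)
    (hg : ∀ i j, H ≤ gg m n i j) : Del (uu m) (uu n) (five m n) ≠ 0 := by
  intro h
  have e : (uu m 0 ^ 2 * uu n 1 * uu n 2) * (gg m n 0 1 * gg m n 0 2) ^ 3 =
      (uu n 0 ^ 2 * uu m 1 * uu m 2) * (gg m n 1 0 * gg m n 2 0) ^ 3 := by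
    unfold Del five at h
    simp only [Matrix.cons_val_zero, Matrix.cons_val_one, Matrix.cons_val] at h
    have h' : (((uu m 0 ^ 2 * uu n 1 * uu n 2) * (gg m n 0 1 * gg m n 0 2) ^ 3 : ℕ) : ℤ) =
      (((uu n 0 ^ 2 * uu m 1 * uu m 2) * (gg m n 1 0 * gg m n 2 0) ^ 3 : ℕ) : ℤ) := by
      push_cast
      linear_combination h
    exact_mod_cast h'
  have hc : Nat.Coprime ((gg m n 0 1 * gg m n 0 2) ^ 3) ((gg m n 1 0 * gg m n 2 0) ^ 3) := by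
    apply Nat.Coprime.pow
    apply Nat.Coprime.mul_left
    · exact Nat.Coprime.mul_right (gg_coprime hm hn (Or.inl (by decide)))
        (gg_coprime hm hn (Or.inl (by decide)))
    · exact Nat.Coprime.mul_right (gg_coprime hm hn (Or.inl (by decide)))
        (gg_coprime hm hn (Or.inl (by decide)))
  have h1 : (gg m n 0 1 * gg m n 0 2) ^ 3 ∣ uu n 0 ^ 2 * uu m 1 * uu m 2 := by
    apply hc.dvd_of_dvd_mul_right
    rw [← e]
    exact Dvd.intro_left _ rfl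
  have h2 : 0 < uu n 0 ^ 2 * uu m 1 * uu m 2 := by
    have a1 := uu_pos hn 0
    have a2 := uu_pos hm 1
    have a3 := uu_pos hm 2
    positivity
  have h3 : (gg m n 0 1 * gg m n 0 2) ^ 3 ≤ uu n 0 ^ 2 * uu m 1 * uu m 2 := Nat.le_of_dvd h2 h1
  have h4 : uu n 0 ^ 2 * uu m 1 * uu m 2 ≤ W ^ 4 := by
    calc uu n 0 ^ 2 * uu m 1 * uu m 2 ≤ W ^ 2 * W * W :=
          Nat.mul_le_mul (Nat.mul_le_mul (Nat.pow_le_pow_left (hv 0) 2) (hu 1)) (hu 2)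
      _ = W ^ 4 := by ring
  have h5 : H ^ 6 ≤ (gg m n 0 1 * gg m n 0 2) ^ 3 := by
    calc H ^ 6 = (H * H) ^ 3 := by ring
      _ ≤ (gg m n 0 1 * gg m n 0 2) ^ 3 :=
          Nat.pow_le_pow_left (Nat.mul_le_mul (hg 0 1) (hg 0 2)) 3
  omega

/-- Common divisors of `β` and `D` are small. -/
theorem common_le {m n : Fin 3 → ℕ} (hm : PC m) (hn : PC n) {W : ℕ}
    (hu : ∀ i, uu m i ≤ W) (hv : ∀ i, uu n i ≤ W) {D : ℤ}
    (h1 : D * (gg m n 1 1 : ℕ) = ((uu m 0 * uu n 2 * gg m n 0 1 * gg m n 0 2 ^ 2 : ℕ) : ℤ) *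
        (gg m n 1 2 : ℕ) - ((uu n 0 * uu m 2 * gg m n 1 0 * gg m n 2 0 ^ 2 : ℕ) : ℤ) *
        (gg m n 2 1 : ℕ)) {k : ℤ}
    (hk1 : k ∣ ((uu n 0 * uu m 2 * gg m n 1 0 * gg m n 2 0 ^ 2 : ℕ) : ℤ)) (hk2 : k ∣ D) :
    k ≤ (W ^ 4 : ℕ) := by
  have d1 : k ∣ ((uu m 0 * uu n 2 * gg m n 0 1 * gg m n 0 2 ^ 2 : ℕ) : ℤ) * (gg m n 1 2 : ℕ) := by
    have : ((uu m 0 * uu n 2 * gg m n 0 1 * gg m n 0 2 ^ 2 : ℕ) : ℤ) * (gg m n 1 2 : ℕ) =
        D * (gg m n 1 1 : ℕ) + ((uu n 0 * uu m 2 * gg m n 1 0 * gg m n 2 0 ^ 2 : ℕ) : ℤ) *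
        (gg m n 2 1 : ℕ) := by linear_combination -h1
    rw [this]
    exact dvd_add (hk2.mul_right _) (hk1.mul_right _)
  have e1 : k.natAbs ∣ (uu n 0 * uu m 2) * (gg m n 1 0 * gg m n 2 0 ^ 2) := by
    have := Int.natAbs_dvd_natAbs.2 hk1
    rw [Int.natAbs_natCast] at this
    rwa [← mul_assoc]
  have e2 : k.natAbs ∣ (uu m 0 * uu n 2) * (gg m n 0 1 * gg m n 0 2 ^ 2 * gg m n 1 2) := by
    have := Int.natAbs_dvd_natAbs.2 d1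
    rw [Int.natAbs_mul, Int.natAbs_natCast, Int.natAbs_natCast] at this
    have e : (uu m 0 * uu n 2) * (gg m n 0 1 * gg m n 0 2 ^ 2 * gg m n 1 2) =
      uu m 0 * uu n 2 * gg m n 0 1 * gg m n 0 2 ^ 2 * gg m n 1 2 := by ring
    rwa [e]
  have hc : Nat.Coprime (gg m n 1 0 * gg m n 2 0 ^ 2)
      (gg m n 0 1 * gg m n 0 2 ^ 2 * gg m n 1 2) := by
    have a1 : ∀ {i j k l : Fin 3}, i ≠ k ∨ j ≠ l → (gg m n i j).Coprime (gg m n k l) :=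
      fun h => gg_coprime hm hn h
    apply Nat.Coprime.mul_left
    · apply Nat.Coprime.mul_right
      · apply Nat.Coprime.mul_right
        · exact a1 (by decide)
        · exact Nat.Coprime.pow_right 2 (a1 (by decide))
      · exact a1 (by decide)
    · apply Nat.Coprime.pow_left
      apply Nat.Coprime.mul_right
      · apply Nat.Coprime.mul_right
        · exact a1 (by decide)
        · exact Nat.Coprime.pow_right 2 (a1 (by decide))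
      · exact a1 (by decide)
  have h3 : k.natAbs ∣ (uu n 0 * uu m 2) * (uu m 0 * uu n 2) := dvd_of_coprime e1 e2 hc
  have p1 := uu_pos hn 0
  have p2 := uu_pos hm 2
  have p3 := uu_pos hm 0
  have p4 := uu_pos hn 2
  have h4 : k.natAbs ≤ (uu n 0 * uu m 2) * (uu m 0 * uu n 2) :=
    Nat.le_of_dvd (by positivity) h3
  have h5 : (uu n 0 * uu m 2) * (uu m 0 * uu n 2) ≤ W ^ 4 := by
    calc (uu n 0 * uu m 2) * (uu m 0 * uu n 2) ≤ (W * W) * (W * W) :=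
          Nat.mul_le_mul (Nat.mul_le_mul (hv 0) (hu 2)) (Nat.mul_le_mul (hu 0) (hv 2))
      _ = W ^ 4 := by ring
  have h6 : k ≤ (k.natAbs : ℤ) := Int.le_natAbs
  exact h6.trans (by exact_mod_cast h4.trans h5)

/-- The data determine the pair. -/
theorem caseB_inj {m n m' n' : Fin 3 → ℕ} {W G H : ℕ} (hGH : G * W ^ 4 < H ^ 3)
    (h : Pair sg sg W (m, n)) (h' : Pair sg sg W (m', n'))
    (hg : ∀ i j, H ≤ gg m n i j ∧ gg m n i j ≤ G)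
    (hg' : ∀ i j, H ≤ gg m' n' i j ∧ gg m' n' i j ≤ G) {D : ℤ} (hD : D ≠ 0)
    (h1 : D * (gg m n 1 1 : ℕ) = ((uu m 0 * uu n 2 * gg m n 0 1 * gg m n 0 2 ^ 2 : ℕ) : ℤ) *
        (gg m n 1 2 : ℕ) - ((uu n 0 * uu m 2 * gg m n 1 0 * gg m n 2 0 ^ 2 : ℕ) : ℤ) *
        (gg m n 2 1 : ℕ))
    (h1' : D * (gg m' n' 1 1 : ℕ) =
      ((uu m' 0 * uu n' 2 * gg m' n' 0 1 * gg m' n' 0 2 ^ 2 : ℕ) : ℤ) *
        (gg m' n' 1 2 : ℕ) - ((uu n' 0 * uu m' 2 * gg m' n' 1 0 * gg m' n' 2 0 ^ 2 : ℕ) : ℤ) *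
        (gg m' n' 2 1 : ℕ))
    (e1 : uu m = uu m') (e2 : uu n = uu n') (e3 : five m n = five m' n') : m = m' ∧ n = n' := by
  obtain ⟨a1, a2, a3, a4, a5, a6, a7, a8⟩ := h
  obtain ⟨b1, b2, b3, b4, b5, b6, b7, b8⟩ := h'
  simp only at a1 a2 a3 a4 a5 a6 a7 a8 b1 b2 b3 b4 b5 b6 b7 b8
  have f0 : gg m n 0 1 = gg m' n' 0 1 := congrFun e3 0
  have f1 : gg m n 0 2 = gg m' n' 0 2 := congrFun e3 1
  have f2 : gg m n 1 0 = gg m' n' 1 0 := congrFun e3 2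
  have f3 : gg m n 2 0 = gg m' n' 2 0 := congrFun e3 3
  have f4 : gg m n 1 2 = gg m' n' 1 2 := congrFun e3 4
  have hβ : (0 : ℤ) < ((uu n 0 * uu m 2 * gg m n 1 0 * gg m n 2 0 ^ 2 : ℕ) : ℤ) := by
    have p1 := uu_pos a2 0
    have p2 := uu_pos a1 2
    have p3 := gg_pos m n 1 0
    have p4 := gg_pos m n 2 0
    exact_mod_cast (by positivity)
  have hGβ : (G : ℤ) * (W ^ 4 : ℕ) < ((uu n 0 * uu m 2 * gg m n 1 0 * gg m n 2 0 ^ 2 : ℕ) : ℤ) := by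
    have h5 : H ^ 3 ≤ uu n 0 * uu m 2 * gg m n 1 0 * gg m n 2 0 ^ 2 := by
      calc H ^ 3 = 1 * 1 * H * H ^ 2 := by ring
        _ ≤ uu n 0 * uu m 2 * gg m n 1 0 * gg m n 2 0 ^ 2 :=
          Nat.mul_le_mul (Nat.mul_le_mul (Nat.mul_le_mul (uu_pos a2 0) (uu_pos a1 2))
            (hg 1 0).1) (Nat.pow_le_pow_left (hg 2 0).1 2)
    exact_mod_cast hGH.trans_le h5
  have h2' : D * (gg m' n' 1 1 : ℕ) = ((uu m 0 * uu n 2 * gg m n 0 1 * gg m n 0 2 ^ 2 : ℕ) : ℤ) *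
        (gg m n 1 2 : ℕ) - ((uu n 0 * uu m 2 * gg m n 1 0 * gg m n 2 0 ^ 2 : ℕ) : ℤ) *
        (gg m' n' 2 1 : ℕ) := by
    rw [h1', e1, e2, f0, f1, f2, f3, f4]
  have key := uniq_g (g := (gg m n 2 1 : ℕ)) (g' := (gg m' n' 2 1 : ℕ)) (G := G) (h := W ^ 4)
    hD hβ h1 h2'
    ⟨by exact_mod_cast gg_pos m n 1 1, by exact_mod_cast (hg 1 1).2⟩
    ⟨by exact_mod_cast gg_pos m' n' 1 1, by exact_mod_cast (hg' 1 1).2⟩
    (fun k hk1 hk2 => common_le a1 a2 a7 a8 h1 hk1 hk2) hGβ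
  have f5 : gg m n 2 1 = gg m' n' 2 1 := by exact_mod_cast key
  have hs : ∀ i, (sg i).natAbs = 1 := by decide
  apply code_inj hs hs a1 a2 b1 b2 a3 b3 a4 a5 b4 b5 a6
  unfold code off
  simp only [Prod.mk.injEq]
  exact ⟨e1, e2, by rw [f0, f1, f2, f3, f4, f5]⟩

theorem Del_le {u v : Fin 3 → ℕ} {f : Fin 5 → ℕ} {W G : ℕ} (hu : ∀ i, u i ≤ W) (hv : ∀ i, v i ≤ W)
    (hf : ∀ i, f i ≤ G) : (Del u v f).natAbs ≤ W ^ 4 * G ^ 6 := by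
  have e : Del u v f = ((u 0 * u 0 * v 1 * v 2 * (f 0 * f 0 * f 0) * (f 1 * f 1 * f 1) : ℕ) : ℤ) -
      ((v 0 * v 0 * u 1 * u 2 * (f 2 * f 2 * f 2) * (f 3 * f 3 * f 3) : ℕ) : ℤ) := by
    unfold Del
    push_cast
    ring
  have h1 : u 0 * u 0 * v 1 * v 2 * (f 0 * f 0 * f 0) * (f 1 * f 1 * f 1) ≤ W ^ 4 * G ^ 6 := by
    calc u 0 * u 0 * v 1 * v 2 * (f 0 * f 0 * f 0) * (f 1 * f 1 * f 1) ≤
          W * W * W * W * (G * G * G) * (G * G * G) := by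
          have := hu 0
          have := hv 1
          have := hv 2
          have := hf 0
          have := hf 1
          gcongr
      _ = W ^ 4 * G ^ 6 := by ring
  have h2 : v 0 * v 0 * u 1 * u 2 * (f 2 * f 2 * f 2) * (f 3 * f 3 * f 3) ≤ W ^ 4 * G ^ 6 := by
    calc v 0 * v 0 * u 1 * u 2 * (f 2 * f 2 * f 2) * (f 3 * f 3 * f 3) ≤
          W * W * W * W * (G * G * G) * (G * G * G) := by
          have := hv 0
          have := hu 1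
          have := hu 2
          have := hf 2
          have := hf 3
          gcongr
      _ = W ^ 4 * G ^ 6 := by ring
  rw [e]
  omega

theorem caseB (W G H T : ℕ) (hH6 : W ^ 4 < H ^ 6) (hGH : G * W ^ 4 < H ^ 3)
    (hT : ∀ n, 1 ≤ n → n ≤ W ^ 4 * G ^ 6 → n.divisors.card ≤ T)
    (S : Finset ((Fin 3 → ℕ) × (Fin 3 → ℕ)))
    (hS : ∀ p ∈ S, Pair sg sg W p ∧ ∀ i j, H ≤ gg p.1 p.2 i j ∧ gg p.1 p.2 i j ≤ G) :
    S.card ≤ 2 * T * (W ^ 3 * (W ^ 3 * G ^ 5)) := by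
  classical
  obtain ⟨φ, hφ⟩ : ∃ φ : (Fin 3 → ℕ) × (Fin 3 → ℕ) → (Fin 3 → ℕ) × (Fin 3 → ℕ) × (Fin 5 → ℕ),
      φ = fun p => (uu p.1, uu p.2, five p.1 p.2) := ⟨_, rfl⟩
  have h1 : S.card ≤ 2 * T * (S.image φ).card := by
    apply Finset.card_le_mul_card_image
    intro c hc
    obtain ⟨p0, hp0, hc0⟩ := mem_image.1 hc
    -- choose `D` for each pair
    have hD : ∀ p : (Fin 3 → ℕ) × (Fin 3 → ℕ), ∃ D : ℤ, p ∈ S →
        D * (gg p.1 p.2 1 1 : ℕ) = ((uu p.1 0 * uu p.2 2 * gg p.1 p.2 0 1 *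
          gg p.1 p.2 0 2 ^ 2 : ℕ) : ℤ) * (gg p.1 p.2 1 2 : ℕ) - ((uu p.2 0 * uu p.1 2 *
          gg p.1 p.2 1 0 * gg p.1 p.2 2 0 ^ 2 : ℕ) : ℤ) * (gg p.1 p.2 2 1 : ℕ) ∧
        D ∣ Del (uu p.1) (uu p.2) (five p.1 p.2) := by
      intro p
      by_cases hp : p ∈ S
      · obtain ⟨⟨a1, a2, a3, a4, a5, a6, a7, a8⟩, a9⟩ := hS p hp
        obtain ⟨D, hD1, hD2⟩ := exists_D' a1 a2 a3 a4 a5
        exact ⟨D, fun _ => ⟨hD1, D_dvd a1 a2 hD1 hD2⟩⟩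
      · exact ⟨0, fun h => absurd h hp⟩
    choose D hD using hD
    have hne : ∀ p ∈ S, Del (uu p.1) (uu p.2) (five p.1 p.2) ≠ 0 := by
      intro p hp
      obtain ⟨⟨a1, a2, a3, a4, a5, a6, a7, a8⟩, a9⟩ := hS p hp
      exact Del_ne a1 a2 a7 a8 hH6 (fun i j => (a9 i j).1)
    have hfib : ∀ p ∈ S.filter (fun p => φ p = c), p ∈ S ∧ uu p.1 = uu p0.1 ∧
        uu p.2 = uu p0.2 ∧ five p.1 p.2 = five p0.1 p0.2 := by
      intro p hp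
      rw [mem_filter, ← hc0, hφ] at hp
      simp only [Prod.mk.injEq] at hp
      exact hp
    obtain ⟨E, hE⟩ : ∃ E : ℤ, E = Del (uu p0.1) (uu p0.2) (five p0.1 p0.2) := ⟨_, rfl⟩
    have hE0 : E ≠ 0 := by rw [hE]; exact hne p0 hp0
    have hmap : ∀ p ∈ S.filter (fun p => φ p = c), D p ∈
        (E.natAbs.divisors.image (fun d : ℕ => (d : ℤ))) ∪
          (E.natAbs.divisors.image (fun d : ℕ => -(d : ℤ))) := by
      intro p hp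
      obtain ⟨g1, g2, g3, g4⟩ := hfib p hp
      have h3 := (hD p g1).2
      rw [g2, g3, g4, ← hE] at h3
      have h4 : (D p).natAbs ∈ E.natAbs.divisors := by
        rw [Nat.mem_divisors]
        exact ⟨Int.natAbs_dvd_natAbs.2 h3, by simpa using hE0⟩
      rw [mem_union, mem_image, mem_image]
      rcases le_total 0 (D p) with h5 | h5
      · exact Or.inl ⟨_, h4, Int.natAbs_of_nonneg h5⟩
      · refine Or.inr ⟨_, h4, ?_⟩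
        rw [Int.ofNat_natAbs_of_nonpos h5]
        ring
    have hinj : Set.InjOn D (S.filter (fun p => φ p = c) : Finset _) := by
      intro p hp q hq hpq
      rw [Finset.mem_coe] at hp hq
      obtain ⟨g1, g2, g3, g4⟩ := hfib p hp
      obtain ⟨k1, k2, k3, k4⟩ := hfib q hq
      have h3 := (hD p g1).1
      have h3' := (hD q k1).1
      rw [← hpq] at h3'
      have h0 : D p ≠ 0 := by
        intro h0
        have := (hD p g1).2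
        rw [h0, zero_dvd_iff] at this
        exact hne p g1 this
      obtain ⟨e1, e2⟩ := caseB_inj hGH (hS p g1).1 (hS q k1).1 (hS p g1).2 (hS q k1).2 h0 h3 h3'
        (g2.trans k2.symm) (g3.trans k3.symm) (g4.trans k4.symm)
      exact Prod.ext e1 e2
    have h5 : E.natAbs.divisors.card ≤ T := by
      apply hT
      · exact Nat.pos_of_ne_zero (by simpa using hE0)
      · rw [hE]
        obtain ⟨⟨a1, a2, a3, a4, a5, a6, a7, a8⟩, a9⟩ := hS p0 hp0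
        apply Del_le a7 a8
        intro i
        unfold five
        fin_cases i <;> exact (a9 _ _).2
    calc (S.filter (fun p => φ p = c)).card ≤ _ := card_le_card_of_injOn D hmap hinj
      _ ≤ E.natAbs.divisors.card + E.natAbs.divisors.card := by
          refine (card_union_le _ _).trans ?_
          exact Nat.add_le_add card_image_le card_image_le
      _ ≤ 2 * T := by omega
  refine h1.trans (Nat.mul_le_mul_left _ ?_)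
  have hsub : S.image φ ⊆ ubox W ×ˢ (ubox W ×ˢ Fintype.piFinset (fun _ : Fin 5 => Icc 1 G)) := by
    intro c hc
    obtain ⟨p, hp, rfl⟩ := mem_image.1 hc
    obtain ⟨⟨a1, a2, a3, a4, a5, a6, a7, a8⟩, a9⟩ := hS _ hp
    rw [hφ, mem_product, mem_product]
    refine ⟨mem_ubox a1 a7, mem_ubox a2 a8, ?_⟩
    rw [Fintype.mem_piFinset]
    intro i
    rw [mem_Icc]
    show 1 ≤ five p.1 p.2 i ∧ five p.1 p.2 i ≤ G
    unfold five
    fin_cases i <;> exact ⟨gg_pos _ _ _ _, (a9 _ _).2⟩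
  refine (card_le_card hsub).trans ?_
  rw [card_product, card_product, ubox_card, Fintype.card_piFinset]
  simp

end Pool.Agent.Lib.AbcD
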