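import Mathlib
import Pool.Agent.Lib.AbcD.CaseB
import Pool.Agent.Lib.AbcG.Tail

/-!
# Pairs of abc-triples with the same radical: good pairs
-/

set_option autoImplicit false

open Finset

namespace Pool.Agent.Lib.AbcD

open Pool.Agent.Lib.AbcG

/-- The entries from the row, column and permutation sums. -/
theorem entries {g : Fin 3 → Fin 3 → ℝ} {L : ℝ} (hL : 0 ≤ L)
    (hrow : ∀ i, g i 0 + g i 1 + g i 2 ≤ (1 / 3 + 1 / 10000) * L)
    (hcol : ∀ j, g 0 j + g 1 j + g 2 j ≤ (1 / 3 + 1 / 10000) * L)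
    (htot : (1 - 1 / 10000) * L ≤ (g 0 0 + g 0 1 + g 0 2) + (g 1 0 + g 1 1 + g 1 2) +
      (g 2 0 + g 2 1 + g 2 2))
    (hperm : ∀ σ : Equiv.Perm (Fin 3), g 0 (σ 0) + g 1 (σ 1) + g 2 (σ 2) ≤
      (1 / 3 + 1 / 100) * L) (i j : Fin 3) :
    97 / 1000 * L ≤ g i j ∧ g i j ≤ 59 / 500 * L := by
  have r0 := hrow 0
  have r1 := hrow 1
  have r2 := hrow 2
  have c0 := hcol 0
  have c1 := hcol 1
  have c2 := hcol 2
  have p1 : g 0 0 + g 1 1 + g 2 2 ≤ (1 / 3 + 1 / 100) * L := hperm 1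
  have p2 : g 0 1 + g 1 0 + g 2 2 ≤ (1 / 3 + 1 / 100) * L := hperm (Equiv.swap 0 1)
  have p3 : g 0 2 + g 1 1 + g 2 0 ≤ (1 / 3 + 1 / 100) * L := hperm (Equiv.swap 0 2)
  have p4 : g 0 0 + g 1 2 + g 2 1 ≤ (1 / 3 + 1 / 100) * L := hperm (Equiv.swap 1 2)
  have p5 : g 0 1 + g 1 2 + g 2 0 ≤ (1 / 3 + 1 / 100) * L := hperm (finRotate 3)
  have p6 : g 0 2 + g 1 0 + g 2 1 ≤ (1 / 3 + 1 / 100) * L := hperm (finRotate 3)⁻¹
  fin_cases i <;> fin_cases j <;> constructor <;> simp <;> linarith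

/-- The members of the triple. -/
def mem (t : ℕ × ℕ) : Fin 3 → ℕ := ![t.1, t.2, t.1 + t.2]

theorem mem_PC {t : ℕ × ℕ} (h1 : 0 < t.1) (h2 : 0 < t.2) (h3 : t.1.Coprime t.2) :
    PC (mem t) := by
  have h4 : t.1.Coprime (t.1 + t.2) := Nat.coprime_self_add_right.mpr h3
  have h5 : t.2.Coprime (t.1 + t.2) := Nat.coprime_add_self_right.mpr h3.symm
  constructor
  · intro i
    unfold mem
    fin_cases i
    · exact h1
    · exact h2
    · exact Nat.add_pos_left h1 _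
  · intro i j hij
    unfold mem
    fin_cases i <;> fin_cases j
    · exact absurd rfl hij
    · exact h3
    · exact h4
    · exact h3.symm
    · exact absurd rfl hij
    · exact h5
    · exact h4.symm
    · exact h5.symm
    · exact absurd rfl hij

theorem mem_rel (t : ℕ × ℕ) : Rel sg (mem t) := by
  unfold Rel sg mem
  simp

theorem rr_mem {t : ℕ × ℕ} (h : PC (mem t)) : rr (mem t) = rad (Nn t) := by
  have h01 : t.1.Coprime t.2 := h.2 0 1 (by decide)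
  have h02 : t.1.Coprime (t.1 + t.2) := h.2 0 2 (by decide)
  have h12 : t.2.Coprime (t.1 + t.2) := h.2 1 2 (by decide)
  unfold Nn
  rw [tail_rad_mul (Nat.Coprime.mul_left h02 h12), tail_rad_mul h01]
  rfl

theorem rr_eq_prod (m : Fin 3 → ℕ) : rr m = ∏ i, rad (m i) := by
  rw [Fin.prod_univ_three]
  rfl

theorem rr_perm (m : Fin 3 → ℕ) (σ : Equiv.Perm (Fin 3)) : rr (fun i => m (σ i)) = rr m := by
  rw [rr_eq_prod, rr_eq_prod]
  exact Equiv.prod_comp σ (fun i => rad (m i))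

theorem PC_perm {m : Fin 3 → ℕ} (hm : PC m) (σ : Equiv.Perm (Fin 3)) : PC (fun i => m (σ i)) :=
  ⟨fun i => hm.1 (σ i), fun i j hij => hm.2 (σ i) (σ j) (fun h => hij (σ.injective h))⟩

theorem Rel_perm {s : Fin 3 → ℤ} {m : Fin 3 → ℕ} (h : Rel s m) (σ : Equiv.Perm (Fin 3)) :
    Rel (fun i => s (σ i)) (fun i => m (σ i)) := by
  have e : ∀ (s : Fin 3 → ℤ) (m : Fin 3 → ℕ), (s 0 * (m 0 : ℤ) + s 1 * (m 1 : ℤ) +
      s 2 * (m 2 : ℤ)) = ∑ i, s i * (m i : ℤ) := by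
    intro s m
    rw [Fin.sum_univ_three]
  unfold Rel at h ⊢
  rw [e] at h
  rw [e (fun i => s (σ i)) (fun i => m (σ i))]
  rw [← h]
  exact Equiv.sum_comp σ (fun i => s i * (m i : ℤ))

/-- Equality up to order. -/
theorem mem_degenerate {t t' : ℕ × ℕ} (h1 : 0 < t.1) (h2 : 0 < t.2) (h3 : 0 < t'.1)
    (h4 : 0 < t'.2) {σ : Equiv.Perm (Fin 3)} (h : mem t = fun i => mem t' (σ i)) :
    t' = t ∨ t' = t.swap := by
  obtain ⟨a, b⟩ := t
  obtain ⟨a', b'⟩ := t'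
  have e0 : a = mem (a', b') (σ 0) := congrFun h 0
  have e1 : b = mem (a', b') (σ 1) := congrFun h 1
  have e2 : a + b = mem (a', b') (σ 2) := congrFun h 2
  have n01 : σ 0 ≠ σ 1 := fun h => absurd (σ.injective h) (by decide)
  have n02 : σ 0 ≠ σ 2 := fun h => absurd (σ.injective h) (by decide)
  have n12 : σ 1 ≠ σ 2 := fun h => absurd (σ.injective h) (by decide)
  generalize σ 0 = i at *
  generalize σ 1 = j at *
  generalize σ 2 = k at *
  simp only at h1 h2 h3 h4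
  have m0 : mem (a', b') 0 = a' := rfl
  have m1 : mem (a', b') 1 = b' := rfl
  have m2 : mem (a', b') 2 = a' + b' := rfl
  simp only [Prod.mk.injEq, Prod.swap_prod_mk]
  have hi : i = 0 ∨ i = 1 ∨ i = 2 := by fin_cases i <;> simp
  have hj : j = 0 ∨ j = 1 ∨ j = 2 := by fin_cases j <;> simp
  have hk : k = 0 ∨ k = 1 ∨ k = 2 := by fin_cases k <;> simp
  rcases hi with rfl | rfl | rfl <;> rcases hj with rfl | rfl | rfl <;>
    rcases hk with rfl | rfl | rfl <;>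
    first
    | exact absurd rfl n01
    | exact absurd rfl n02
    | exact absurd rfl n12
    | (simp only [m0, m1, m2] at e0 e1 e2; omega)

theorem mem_inj {t t' : ℕ × ℕ} (h : mem t = mem t') : t = t' := by
  have e0 : t.1 = t'.1 := congrFun h 0
  have e1 : t.2 = t'.2 := congrFun h 1
  exact Prod.ext e0 e1

theorem prod_uu_rr (m : Fin 3 → ℕ) : uu m 0 * uu m 1 * uu m 2 * rr m = m 0 * m 1 * m 2 := by
  have h : ∀ i, uu m i * rad (m i) = m i := fun i => Nat.div_mul_cancel (rad_dvd _)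
  conv_rhs => rw [← h 0, ← h 1, ← h 2]
  unfold rr
  ring

end Pool.Agent.Lib.AbcD
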