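import Mathlib
import Pool.Agent.Lib.AbcD.Ent
import Pool.Agent.Lib.P5632c9.DivBound

/-!
# Pairs of abc-triples with the same radical: the count of the good pairs
-/

set_option autoImplicit false

open Finset Filter

namespace Pool.Agent.Lib.AbcD

open Pool.Agent.Lib.AbcG

/-- Radical almost `Y` and members of size about `Y ^ (1/3)`. -/
def Good (Y : ℕ) (t : ℕ × ℕ) : Prop :=
  0 < t.1 ∧ 0 < t.2 ∧ t.1.Coprime t.2 ∧ rad (Nn t) ≤ Y ∧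
    (Y : ℝ) ^ (1 - 1 / 10000 : ℝ) ≤ rad (Nn t) ∧
    (t.1 : ℝ) + t.2 ≤ (Y : ℝ) ^ (1 / 3 + 1 / 10000 : ℝ)

/-- Two essentially different pairs with the same radical. -/
def SameRad (p : (ℕ × ℕ) × (ℕ × ℕ)) : Prop :=
  rad (Nn p.1) = rad (Nn p.2) ∧ p.2 ≠ p.1 ∧ p.2 ≠ p.1.swap

theorem Good.pc {Y : ℕ} {t : ℕ × ℕ} (h : Good Y t) : PC (mem t) := mem_PC h.1 h.2.1 h.2.2.1

theorem Good.mem_le {Y : ℕ} {t : ℕ × ℕ} (h : Good Y t) (i : Fin 3) :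
    (mem t i : ℝ) ≤ (Y : ℝ) ^ (1 / 3 + 1 / 10000 : ℝ) := by
  obtain ⟨h1, h2, h3, h4, h5, h6⟩ := h
  have e1 : (0 : ℝ) ≤ t.1 := Nat.cast_nonneg _
  have e2 : (0 : ℝ) ≤ t.2 := Nat.cast_nonneg _
  unfold mem
  fin_cases i
  · show (t.1 : ℝ) ≤ _
    linarith
  · show (t.2 : ℝ) ≤ _
    linarith
  · show ((t.1 + t.2 : ℕ) : ℝ) ≤ _
    push_cast
    exact h6

theorem Good.uu_le {Y : ℕ} (hY : 1 ≤ Y) {t : ℕ × ℕ} (h : Good Y t) (i : Fin 3) :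
    (uu (mem t) i : ℝ) ≤ (Y : ℝ) ^ (4 / 10000 : ℝ) := by
  have hy : (0 : ℝ) < Y := by exact_mod_cast hY
  have hpc := h.pc
  have e := prod_uu_rr (mem t)
  rw [rr_mem hpc] at e
  have e' : (uu (mem t) 0 : ℝ) * uu (mem t) 1 * uu (mem t) 2 * rad (Nn t) =
      mem t 0 * mem t 1 * mem t 2 := by exact_mod_cast e
  have p0 : (1 : ℝ) ≤ uu (mem t) 0 := by exact_mod_cast uu_pos hpc 0
  have p1 : (1 : ℝ) ≤ uu (mem t) 1 := by exact_mod_cast uu_pos hpc 1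
  have p2 : (1 : ℝ) ≤ uu (mem t) 2 := by exact_mod_cast uu_pos hpc 2
  have b0 := h.mem_le 0
  have b1 := h.mem_le 1
  have b2 := h.mem_le 2
  have hb : (mem t 0 : ℝ) * mem t 1 * mem t 2 ≤ (Y : ℝ) ^ (1 + 3 / 10000 : ℝ) := by
    calc (mem t 0 : ℝ) * mem t 1 * mem t 2 ≤ (Y : ℝ) ^ (1 / 3 + 1 / 10000 : ℝ) *
          (Y : ℝ) ^ (1 / 3 + 1 / 10000 : ℝ) * (Y : ℝ) ^ (1 / 3 + 1 / 10000 : ℝ) := by gcongr
      _ = (Y : ℝ) ^ (1 + 3 / 10000 : ℝ) := by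
        rw [← Real.rpow_add hy, ← Real.rpow_add hy]
        congr 1
        ring
  have hr := h.2.2.2.2.1
  have hprod : (uu (mem t) 0 : ℝ) * uu (mem t) 1 * uu (mem t) 2 ≤ (Y : ℝ) ^ (4 / 10000 : ℝ) := by
    have h1 : (uu (mem t) 0 : ℝ) * uu (mem t) 1 * uu (mem t) 2 * (Y : ℝ) ^ (1 - 1 / 10000 : ℝ) ≤
        (Y : ℝ) ^ (4 / 10000 : ℝ) * (Y : ℝ) ^ (1 - 1 / 10000 : ℝ) := by
      rw [← Real.rpow_add hy]
      calc (uu (mem t) 0 : ℝ) * uu (mem t) 1 * uu (mem t) 2 * (Y : ℝ) ^ (1 - 1 / 10000 : ℝ) ≤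
            (uu (mem t) 0 : ℝ) * uu (mem t) 1 * uu (mem t) 2 * rad (Nn t) := by gcongr
        _ = mem t 0 * mem t 1 * mem t 2 := e'
        _ ≤ (Y : ℝ) ^ (1 + 3 / 10000 : ℝ) := hb
        _ = (Y : ℝ) ^ (4 / 10000 + (1 - 1 / 10000) : ℝ) := by
          congr 1
          ring
    exact le_of_mul_le_mul_right h1 (by positivity)
  have q01 : (1 : ℝ) ≤ (uu (mem t) 0 : ℝ) * uu (mem t) 1 := by nlinarith
  fin_cases i
  · show (uu (mem t) 0 : ℝ) ≤ _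
    nlinarith
  · show (uu (mem t) 1 : ℝ) ≤ _
    nlinarith
  · show (uu (mem t) 2 : ℝ) ≤ _
    nlinarith

theorem off_prod {m n : Fin 3 → ℕ} (hn : PC n) (h : rr m = rr n) :
    (∏ i, off m n i) * (gg m n 0 0 * gg m n 1 1 * gg m n 2 2) = rr m := by
  rw [rr_eq hn h, Fin.prod_univ_six]
  unfold off
  simp only [Matrix.cons_val_zero, Matrix.cons_val_one, Matrix.cons_val]
  ring

/-- The product along a permutation. -/
def dg (σ : Equiv.Perm (Fin 3)) (p : (ℕ × ℕ) × (ℕ × ℕ)) : ℕ :=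
  gg (mem p.1) (mem p.2) 0 (σ 0) * gg (mem p.1) (mem p.2) 1 (σ 1) *
    gg (mem p.1) (mem p.2) 2 (σ 2)

theorem dg_pos (σ : Equiv.Perm (Fin 3)) (p : (ℕ × ℕ) × (ℕ × ℕ)) : 0 < dg σ p :=
  Nat.mul_pos (Nat.mul_pos (gg_pos _ _ _ _) (gg_pos _ _ _ _)) (gg_pos _ _ _ _)

theorem caseA_good {Y W Z T : ℕ} (hY : 1 ≤ Y) (hW : ∀ u : ℕ, (u : ℝ) ≤ (Y : ℝ) ^ (4 / 10000 : ℝ) → u ≤ W)
    (hZ : ∀ u : ℕ, (u : ℝ) ≤ (Y : ℝ) ^ (2 / 3 - 1 / 100 : ℝ) → u ≤ Z)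
    (hT : ∀ n, 1 ≤ n → n ≤ Z → n.divisors.card ≤ T) (σ : Equiv.Perm (Fin 3))
    (S : Finset ((ℕ × ℕ) × (ℕ × ℕ)))
    (hS : ∀ p ∈ S, Good Y p.1 ∧ Good Y p.2 ∧ SameRad p ∧
      (Y : ℝ) ^ (1 / 3 + 1 / 100 : ℝ) < dg σ p) : S.card ≤ W ^ 3 * (W ^ 3 * (T ^ 6 * Z)) := by
  classical
  have hy : (0 : ℝ) < Y := by exact_mod_cast hY
  obtain ⟨ψ, hψ⟩ : ∃ ψ : (ℕ × ℕ) × (ℕ × ℕ) → (Fin 3 → ℕ) × (Fin 3 → ℕ),
      ψ = fun p => (mem p.1, fun i => mem p.2 (σ i)) := ⟨_, rfl⟩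
  have hinj : Function.Injective ψ := by
    intro p q h
    rw [hψ] at h
    simp only [Prod.mk.injEq] at h
    obtain ⟨h1, h2⟩ := h
    apply Prod.ext (mem_inj h1)
    apply mem_inj
    funext i
    have := congrFun h2 (σ⁻¹ i)
    simpa using this
  rw [← card_image_of_injective S hinj]
  have hs : ∀ i, (sg i).natAbs = 1 := by decide
  apply caseA (s := sg) (s' := fun i => sg (σ i)) hs (fun i => hs (σ i)) W Z T _ _ hT
  intro q hq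
  obtain ⟨p, hp, rfl⟩ := mem_image.1 hq
  obtain ⟨g1, g2, ⟨g3, g4, g5⟩, g6⟩ := hS p hp
  have c1 := g1.pc
  have c2 := g2.pc
  have hr : rr (mem p.1) = rr (fun i => mem p.2 (σ i)) := by
    rw [rr_perm, rr_mem c1, rr_mem c2, g3]
  rw [hψ]
  refine ⟨⟨c1, PC_perm c2 σ, hr, mem_rel _, Rel_perm (mem_rel _) σ, ?_, ?_, ?_⟩, ?_⟩
  · intro h
    rcases mem_degenerate g1.1 g1.2.1 g2.1 g2.2.1 h with h' | h'
    · exact g4 h'
    · exact g5 h'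
  · intro i
    exact hW _ (g1.uu_le hY i)
  · intro i
    exact hW _ (g2.uu_le hY (σ i))
  · apply hZ
    have h1 := off_prod (m := mem p.1) (PC_perm c2 σ) hr
    have h2 : gg (mem p.1) (fun i => mem p.2 (σ i)) 0 0 * gg (mem p.1) (fun i => mem p.2 (σ i)) 1 1 *
        gg (mem p.1) (fun i => mem p.2 (σ i)) 2 2 = dg σ p := rfl
    rw [h2, rr_mem c1] at h1
    have h3 : ((∏ i, off (mem p.1) (fun i => mem p.2 (σ i)) i : ℕ) : ℝ) * (dg σ p : ℝ) ≤ Y := by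
      have h4 : ((∏ i, off (mem p.1) (fun i => mem p.2 (σ i)) i : ℕ) * dg σ p) ≤ Y := by
        rw [h1]
        exact g1.2.2.2.1
      exact_mod_cast h4
    obtain ⟨O, hO⟩ : ∃ O : ℕ, O = ∏ i, off (mem p.1) (fun i => mem p.2 (σ i)) i := ⟨_, rfl⟩
    rw [← hO] at h3
    show ((∏ i, off (mem p.1) (fun i => mem p.2 (σ i)) i : ℕ) : ℝ) ≤ _
    rw [← hO]
    have hp0 : (0 : ℝ) < (Y : ℝ) ^ (1 / 3 + 1 / 100 : ℝ) := by positivity
    have h5 : (O : ℝ) * (Y : ℝ) ^ (1 / 3 + 1 / 100 : ℝ) ≤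
        (Y : ℝ) ^ (2 / 3 - 1 / 100 : ℝ) * (Y : ℝ) ^ (1 / 3 + 1 / 100 : ℝ) := by
      rw [← Real.rpow_add hy]
      have e : (2 / 3 - 1 / 100 + (1 / 3 + 1 / 100) : ℝ) = 1 := by norm_num
      rw [e, Real.rpow_one]
      refine le_trans ?_ h3
      gcongr
    exact le_of_mul_le_mul_right h5 hp0

theorem log_gg_sum {Y : ℕ} (hY : 1 ≤ Y) {m n : Fin 3 → ℕ} (hm : ∀ i, 0 < m i) (hn : PC n)
    (h : rr m = rr n) (hb : ∀ i, (m i : ℝ) ≤ (Y : ℝ) ^ (1 / 3 + 1 / 10000 : ℝ)) (i : Fin 3) :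
    Real.log (gg m n i 0) + Real.log (gg m n i 1) + Real.log (gg m n i 2) ≤
      (1 / 3 + 1 / 10000) * Real.log Y := by
  have hy : (0 : ℝ) < Y := by exact_mod_cast hY
  have p : ∀ i j, (0 : ℝ) < gg m n i j := fun i j => by exact_mod_cast gg_pos m n i j
  have h1 : (gg m n i 0 : ℝ) * gg m n i 1 * gg m n i 2 = rad (m i) := by
    exact_mod_cast (rad_row hn h i).symm
  rw [← Real.log_mul (p i 0).ne' (p i 1).ne', ← Real.log_mul (mul_pos (p i 0) (p i 1)).ne'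
    (p i 2).ne', h1, ← Real.log_rpow hy]
  apply Real.log_le_log
  · exact_mod_cast rad_pos _
  · refine le_trans ?_ (hb i)
    exact_mod_cast Nat.le_of_dvd (hm i) (rad_dvd _)

theorem caseB_good {Y W G H T : ℕ} (hY : 1 ≤ Y)
    (hW : ∀ u : ℕ, (u : ℝ) ≤ (Y : ℝ) ^ (4 / 10000 : ℝ) → u ≤ W)
    (hG : ∀ u : ℕ, (u : ℝ) ≤ (Y : ℝ) ^ (59 / 500 : ℝ) → u ≤ G)
    (hH : ∀ u : ℕ, (Y : ℝ) ^ (97 / 1000 : ℝ) ≤ u → H ≤ u)
    (hH6 : W ^ 4 < H ^ 6) (hGH : G * W ^ 4 < H ^ 3)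
    (hT : ∀ n, 1 ≤ n → n ≤ W ^ 4 * G ^ 6 → n.divisors.card ≤ T)
    (S : Finset ((ℕ × ℕ) × (ℕ × ℕ)))
    (hS : ∀ p ∈ S, Good Y p.1 ∧ Good Y p.2 ∧ SameRad p ∧
      ∀ σ, (dg σ p : ℝ) ≤ (Y : ℝ) ^ (1 / 3 + 1 / 100 : ℝ)) :
    S.card ≤ 2 * T * (W ^ 3 * (W ^ 3 * G ^ 5)) := by
  classical
  have hy : (0 : ℝ) < Y := by exact_mod_cast hY
  have hL : 0 ≤ Real.log Y := Real.log_natCast_nonneg Y
  obtain ⟨ψ, hψ⟩ : ∃ ψ : (ℕ × ℕ) × (ℕ × ℕ) → (Fin 3 → ℕ) × (Fin 3 → ℕ),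
      ψ = fun p => (mem p.1, mem p.2) := ⟨_, rfl⟩
  have hinj : Function.Injective ψ := by
    intro p q h
    rw [hψ] at h
    simp only [Prod.mk.injEq] at h
    exact Prod.ext (mem_inj h.1) (mem_inj h.2)
  rw [← card_image_of_injective S hinj]
  apply caseB W G H T hH6 hGH hT
  intro q hq
  obtain ⟨p, hp, rfl⟩ := mem_image.1 hq
  obtain ⟨g1, g2, ⟨g3, g4, g5⟩, g6⟩ := hS p hp
  have c1 := g1.pc
  have c2 := g2.pc
  have hr : rr (mem p.1) = rr (mem p.2) := by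
    rw [rr_mem c1, rr_mem c2, g3]
  rw [hψ]
  refine ⟨⟨c1, c2, hr, mem_rel _, mem_rel _, ?_, ?_, ?_⟩, ?_⟩
  · intro h
    exact g4 (mem_inj h).symm
  · intro i
    exact hW _ (g1.uu_le hY i)
  · intro i
    exact hW _ (g2.uu_le hY i)
  · have pos : ∀ i j, (0 : ℝ) < gg (mem p.1) (mem p.2) i j :=
      fun i j => by exact_mod_cast gg_pos _ _ i j
    have hrow := log_gg_sum hY c1.1 c2 hr g1.mem_le
    have hcol : ∀ j, Real.log (gg (mem p.1) (mem p.2) 0 j) +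
        Real.log (gg (mem p.1) (mem p.2) 1 j) + Real.log (gg (mem p.1) (mem p.2) 2 j) ≤
        (1 / 3 + 1 / 10000) * Real.log Y := by
      intro j
      have := log_gg_sum hY c2.1 c1 hr.symm g2.mem_le j
      rw [gg_symm (mem p.2) (mem p.1), gg_symm (mem p.2) (mem p.1),
        gg_symm (mem p.2) (mem p.1)] at this
      exact this
    have htot : (1 - 1 / 10000) * Real.log Y ≤
        (Real.log (gg (mem p.1) (mem p.2) 0 0) + Real.log (gg (mem p.1) (mem p.2) 0 1) +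
          Real.log (gg (mem p.1) (mem p.2) 0 2)) + (Real.log (gg (mem p.1) (mem p.2) 1 0) +
          Real.log (gg (mem p.1) (mem p.2) 1 1) + Real.log (gg (mem p.1) (mem p.2) 1 2)) +
        (Real.log (gg (mem p.1) (mem p.2) 2 0) + Real.log (gg (mem p.1) (mem p.2) 2 1) +
          Real.log (gg (mem p.1) (mem p.2) 2 2)) := by
      have e1 := rr_eq c2 hr
      rw [rr_mem c1] at e1
      have e2 : (rad (Nn p.1) : ℝ) = ((gg (mem p.1) (mem p.2) 0 0 : ℝ) *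
          gg (mem p.1) (mem p.2) 0 1 * gg (mem p.1) (mem p.2) 0 2) *
          ((gg (mem p.1) (mem p.2) 1 0 : ℝ) *
          gg (mem p.1) (mem p.2) 1 1 * gg (mem p.1) (mem p.2) 1 2) *
          ((gg (mem p.1) (mem p.2) 2 0 : ℝ) *
          gg (mem p.1) (mem p.2) 2 1 * gg (mem p.1) (mem p.2) 2 2) := by exact_mod_cast e1
      have q : ∀ i, ((gg (mem p.1) (mem p.2) i 0 : ℝ) *
          gg (mem p.1) (mem p.2) i 1 * gg (mem p.1) (mem p.2) i 2) ≠ 0 :=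
        fun i => (mul_pos (mul_pos (pos i 0) (pos i 1)) (pos i 2)).ne'
      have e3 : ∀ i, Real.log ((gg (mem p.1) (mem p.2) i 0 : ℝ) *
          gg (mem p.1) (mem p.2) i 1 * gg (mem p.1) (mem p.2) i 2) =
          Real.log (gg (mem p.1) (mem p.2) i 0) + Real.log (gg (mem p.1) (mem p.2) i 1) +
          Real.log (gg (mem p.1) (mem p.2) i 2) := by
        intro i
        rw [Real.log_mul (mul_pos (pos i 0) (pos i 1)).ne' (pos i 2).ne',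
          Real.log_mul (pos i 0).ne' (pos i 1).ne']
      rw [← e3, ← e3, ← e3, ← Real.log_mul (q 0) (q 1), ← Real.log_mul (mul_ne_zero (q 0) (q 1))
        (q 2), ← e2, ← Real.log_rpow hy]
      exact Real.log_le_log (by positivity) g1.2.2.2.2.1
    have hperm : ∀ σ : Equiv.Perm (Fin 3), Real.log (gg (mem p.1) (mem p.2) 0 (σ 0)) +
        Real.log (gg (mem p.1) (mem p.2) 1 (σ 1)) + Real.log (gg (mem p.1) (mem p.2) 2 (σ 2)) ≤
        (1 / 3 + 1 / 100) * Real.log Y := by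
      intro σ
      rw [← Real.log_mul (pos _ _).ne' (pos _ _).ne',
        ← Real.log_mul (mul_pos (pos _ _) (pos _ _)).ne' (pos _ _).ne', ← Real.log_rpow hy]
      apply Real.log_le_log
      · exact mul_pos (mul_pos (pos _ _) (pos _ _)) (pos _ _)
      · have := g6 σ
        unfold dg at this
        push_cast at this
        exact this
    intro i j
    obtain ⟨k1, k2⟩ := entries (g := fun i j => Real.log (gg (mem p.1) (mem p.2) i j)) hL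
      hrow hcol htot hperm i j
    constructor
    · apply hH
      rw [← Real.log_le_log_iff (by positivity) (pos i j), Real.log_rpow hy]
      exact k1
    · apply hG
      rw [← Real.log_le_log_iff (pos i j) (by positivity), Real.log_rpow hy]
      exact k2

end Pool.Agent.Lib.AbcD
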