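import Mathlib
import Pool.Agent.Lib.AbcD.Good

/-!
# Pairs of abc-triples with the same radical: the good pairs are few
-/

set_option autoImplicit false

open Finset Filter

namespace Pool.Agent.Lib.AbcD

open Pool.Agent.Lib.AbcG

theorem good_pairs : ∀ᶠ Y : ℕ in atTop, ∀ S : Finset ((ℕ × ℕ) × (ℕ × ℕ)),
    (∀ p ∈ S, Good Y p.1 ∧ Good Y p.2 ∧ SameRad p) →
    (S.card : ℝ) ≤ (Y : ℝ) ^ (2 / 3 - 6 / 1000 : ℝ) := by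
  classical
  obtain ⟨Cd, hCd, hdiv⟩ := Pool.Agent.Lib.P5632c9.card_divisors_le (1 / 10000) (by norm_num)
  have hlarge : ∀ᶠ Y : ℕ in atTop, 6 * Cd ^ 6 + 2 * Cd ≤ (Y : ℝ) ^ (1 / 1000 : ℝ) := by
    have h1 : Tendsto (fun Y : ℕ => (Y : ℝ) ^ (1 / 1000 : ℝ)) atTop atTop :=
      (tendsto_rpow_atTop (by norm_num)).comp tendsto_natCast_atTop_atTop
    exact h1.eventually (eventually_ge_atTop _)
  filter_upwards [hlarge, eventually_ge_atTop 2] with Y hYl hY2 S hS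
  have hY1 : 1 ≤ Y := by omega
  have hy1 : (1 : ℝ) < Y := by exact_mod_cast hY2
  have hy : (0 : ℝ) < Y := by linarith
  obtain ⟨W, hW⟩ : ∃ W : ℕ, W = ⌊(Y : ℝ) ^ (4 / 10000 : ℝ)⌋₊ := ⟨_, rfl⟩
  obtain ⟨Z, hZ⟩ : ∃ Z : ℕ, Z = ⌊(Y : ℝ) ^ (2 / 3 - 1 / 100 : ℝ)⌋₊ := ⟨_, rfl⟩
  obtain ⟨G, hG⟩ : ∃ G : ℕ, G = ⌊(Y : ℝ) ^ (59 / 500 : ℝ)⌋₊ := ⟨_, rfl⟩
  obtain ⟨H, hH⟩ : ∃ H : ℕ, H = ⌈(Y : ℝ) ^ (97 / 1000 : ℝ)⌉₊ := ⟨_, rfl⟩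
  obtain ⟨T, hT⟩ : ∃ T : ℕ, T = ⌊Cd * (Y : ℝ) ^ (1 / 10000 : ℝ)⌋₊ := ⟨_, rfl⟩
  have hWle : (W : ℝ) ≤ (Y : ℝ) ^ (4 / 10000 : ℝ) := by rw [hW]; exact Nat.floor_le (by positivity)
  have hZle : (Z : ℝ) ≤ (Y : ℝ) ^ (2 / 3 - 1 / 100 : ℝ) := by
    rw [hZ]; exact Nat.floor_le (by positivity)
  have hGle : (G : ℝ) ≤ (Y : ℝ) ^ (59 / 500 : ℝ) := by rw [hG]; exact Nat.floor_le (by positivity)
  have hHge : (Y : ℝ) ^ (97 / 1000 : ℝ) ≤ H := by rw [hH]; exact Nat.le_ceil _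
  have hTle : (T : ℝ) ≤ Cd * (Y : ℝ) ^ (1 / 10000 : ℝ) := by
    rw [hT]; exact Nat.floor_le (by positivity)
  have hW' : ∀ u : ℕ, (u : ℝ) ≤ (Y : ℝ) ^ (4 / 10000 : ℝ) → u ≤ W := by
    intro u hu; rw [hW]; exact Nat.le_floor hu
  have hZ' : ∀ u : ℕ, (u : ℝ) ≤ (Y : ℝ) ^ (2 / 3 - 1 / 100 : ℝ) → u ≤ Z := by
    intro u hu; rw [hZ]; exact Nat.le_floor hu
  have hG' : ∀ u : ℕ, (u : ℝ) ≤ (Y : ℝ) ^ (59 / 500 : ℝ) → u ≤ G := by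
    intro u hu; rw [hG]; exact Nat.le_floor hu
  have hH' : ∀ u : ℕ, (Y : ℝ) ^ (97 / 1000 : ℝ) ≤ u → H ≤ u := by
    intro u hu; rw [hH]; exact Nat.ceil_le.2 hu
  have hTdiv : ∀ n : ℕ, 1 ≤ n → (n : ℝ) ≤ Y → n.divisors.card ≤ T := by
    intro n hn hnY
    rw [hT]
    apply Nat.le_floor
    refine (hdiv n (by omega)).trans ?_
    have : (n : ℝ) ^ (1 / 10000 : ℝ) ≤ (Y : ℝ) ^ (1 / 10000 : ℝ) :=
      Real.rpow_le_rpow (Nat.cast_nonneg _) hnY (by norm_num)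
    exact mul_le_mul_of_nonneg_left this (by linarith)
  have hW4 : (W : ℝ) ^ 4 ≤ (Y : ℝ) ^ (16 / 10000 : ℝ) := by
    calc (W : ℝ) ^ 4 ≤ ((Y : ℝ) ^ (4 / 10000 : ℝ)) ^ 4 := by gcongr
      _ = (Y : ℝ) ^ (16 / 10000 : ℝ) := by
        rw [← Real.rpow_natCast, ← Real.rpow_mul hy.le]
        congr 1
        norm_num
  have hW6 : (W : ℝ) ^ 6 ≤ (Y : ℝ) ^ (24 / 10000 : ℝ) := by
    calc (W : ℝ) ^ 6 ≤ ((Y : ℝ) ^ (4 / 10000 : ℝ)) ^ 6 := by gcongr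
      _ = (Y : ℝ) ^ (24 / 10000 : ℝ) := by
        rw [← Real.rpow_natCast, ← Real.rpow_mul hy.le]
        congr 1
        norm_num
  have hG5 : (G : ℝ) ^ 5 ≤ (Y : ℝ) ^ (59 / 100 : ℝ) := by
    calc (G : ℝ) ^ 5 ≤ ((Y : ℝ) ^ (59 / 500 : ℝ)) ^ 5 := by gcongr
      _ = (Y : ℝ) ^ (59 / 100 : ℝ) := by
        rw [← Real.rpow_natCast, ← Real.rpow_mul hy.le]
        congr 1
        norm_num
  have hG6 : (G : ℝ) ^ 6 ≤ (Y : ℝ) ^ (354 / 500 : ℝ) := by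
    calc (G : ℝ) ^ 6 ≤ ((Y : ℝ) ^ (59 / 500 : ℝ)) ^ 6 := by gcongr
      _ = (Y : ℝ) ^ (354 / 500 : ℝ) := by
        rw [← Real.rpow_natCast, ← Real.rpow_mul hy.le]
        congr 1
        norm_num
  have hH3 : (Y : ℝ) ^ (291 / 1000 : ℝ) ≤ (H : ℝ) ^ 3 := by
    calc (Y : ℝ) ^ (291 / 1000 : ℝ) = ((Y : ℝ) ^ (97 / 1000 : ℝ)) ^ 3 := by
          rw [← Real.rpow_natCast, ← Real.rpow_mul hy.le]
          congr 1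
          norm_num
      _ ≤ (H : ℝ) ^ 3 := by gcongr
  have hH6 : (Y : ℝ) ^ (582 / 1000 : ℝ) ≤ (H : ℝ) ^ 6 := by
    calc (Y : ℝ) ^ (582 / 1000 : ℝ) = ((Y : ℝ) ^ (97 / 1000 : ℝ)) ^ 6 := by
          rw [← Real.rpow_natCast, ← Real.rpow_mul hy.le]
          congr 1
          norm_num
      _ ≤ (H : ℝ) ^ 6 := by gcongr
  have hT6 : (T : ℝ) ^ 6 ≤ Cd ^ 6 * (Y : ℝ) ^ (6 / 10000 : ℝ) := by
    calc (T : ℝ) ^ 6 ≤ (Cd * (Y : ℝ) ^ (1 / 10000 : ℝ)) ^ 6 := by gcongr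
      _ = Cd ^ 6 * (Y : ℝ) ^ (6 / 10000 : ℝ) := by
        rw [mul_pow, ← Real.rpow_natCast ((Y : ℝ) ^ (1 / 10000 : ℝ)), ← Real.rpow_mul hy.le]
        congr 2
        norm_num
  have cond1 : W ^ 4 < H ^ 6 := by
    have h1 : (Y : ℝ) ^ (16 / 10000 : ℝ) < (Y : ℝ) ^ (582 / 1000 : ℝ) :=
      Real.rpow_lt_rpow_of_exponent_lt hy1 (by norm_num)
    have h2 : (W : ℝ) ^ 4 < (H : ℝ) ^ 6 := by linarith
    exact_mod_cast h2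
  have cond2 : G * W ^ 4 < H ^ 3 := by
    have h1 : (G : ℝ) * (W : ℝ) ^ 4 ≤ (Y : ℝ) ^ (59 / 500 : ℝ) * (Y : ℝ) ^ (16 / 10000 : ℝ) := by
      gcongr
    rw [← Real.rpow_add hy] at h1
    have h2 : (Y : ℝ) ^ (59 / 500 + 16 / 10000 : ℝ) < (Y : ℝ) ^ (291 / 1000 : ℝ) :=
      Real.rpow_lt_rpow_of_exponent_lt hy1 (by norm_num)
    have h3 : (G : ℝ) * (W : ℝ) ^ 4 < (H : ℝ) ^ 3 := by linarith
    exact_mod_cast h3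
  have cond3 : ∀ n, 1 ≤ n → n ≤ W ^ 4 * G ^ 6 → n.divisors.card ≤ T := by
    intro n hn1 hn2
    apply hTdiv n hn1
    have h1 : (n : ℝ) ≤ (W : ℝ) ^ 4 * (G : ℝ) ^ 6 := by exact_mod_cast hn2
    have h2 : (W : ℝ) ^ 4 * (G : ℝ) ^ 6 ≤ (Y : ℝ) ^ (16 / 10000 : ℝ) * (Y : ℝ) ^ (354 / 500 : ℝ) := by
      gcongr
    rw [← Real.rpow_add hy] at h2
    have h3 : (Y : ℝ) ^ (16 / 10000 + 354 / 500 : ℝ) ≤ (Y : ℝ) ^ (1 : ℝ) :=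
      Real.rpow_le_rpow_of_exponent_le hy1.le (by norm_num)
    rw [Real.rpow_one] at h3
    linarith
  have cond4 : ∀ n, 1 ≤ n → n ≤ Z → n.divisors.card ≤ T := by
    intro n hn1 hn2
    apply hTdiv n hn1
    have h1 : (n : ℝ) ≤ Z := by exact_mod_cast hn2
    have h3 : (Y : ℝ) ^ (2 / 3 - 1 / 100 : ℝ) ≤ (Y : ℝ) ^ (1 : ℝ) :=
      Real.rpow_le_rpow_of_exponent_le hy1.le (by norm_num)
    rw [Real.rpow_one] at h3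
    linarith
  -- the two cases
  have hA : ∀ σ : Equiv.Perm (Fin 3),
      (S.filter (fun p => (Y : ℝ) ^ (1 / 3 + 1 / 100 : ℝ) < dg σ p)).card ≤
        W ^ 3 * (W ^ 3 * (T ^ 6 * Z)) := by
    intro σ
    apply caseA_good hY1 hW' hZ' cond4 σ
    intro p hp
    rw [mem_filter] at hp
    obtain ⟨a1, a2, a3⟩ := hS p hp.1
    exact ⟨a1, a2, a3, hp.2⟩
  have hB : (S.filter (fun p => ∀ σ, (dg σ p : ℝ) ≤ (Y : ℝ) ^ (1 / 3 + 1 / 100 : ℝ))).card ≤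
      2 * T * (W ^ 3 * (W ^ 3 * G ^ 5)) := by
    apply caseB_good hY1 hW' hG' hH' cond1 cond2 cond3
    intro p hp
    rw [mem_filter] at hp
    obtain ⟨a1, a2, a3⟩ := hS p hp.1
    exact ⟨a1, a2, a3, hp.2⟩
  have hcover : S ⊆ (univ : Finset (Equiv.Perm (Fin 3))).biUnion
      (fun σ => S.filter (fun p => (Y : ℝ) ^ (1 / 3 + 1 / 100 : ℝ) < dg σ p)) ∪
      S.filter (fun p => ∀ σ, (dg σ p : ℝ) ≤ (Y : ℝ) ^ (1 / 3 + 1 / 100 : ℝ)) := by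
    intro p hp
    rw [mem_union, mem_biUnion]
    by_cases h : ∀ σ, (dg σ p : ℝ) ≤ (Y : ℝ) ^ (1 / 3 + 1 / 100 : ℝ)
    · right
      rw [mem_filter]
      exact ⟨hp, h⟩
    · left
      push Not at h
      obtain ⟨σ, hσ⟩ := h
      exact ⟨σ, mem_univ _, by rw [mem_filter]; exact ⟨hp, hσ⟩⟩
  have hcard : S.card ≤ 6 * (W ^ 3 * (W ^ 3 * (T ^ 6 * Z))) +
      2 * T * (W ^ 3 * (W ^ 3 * G ^ 5)) := by
    refine (card_le_card hcover).trans ((card_union_le _ _).trans (Nat.add_le_add ?_ hB))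
    refine card_biUnion_le.trans ?_
    refine (sum_le_sum (fun σ _ => hA σ)).trans ?_
    rw [sum_const, smul_eq_mul]
    apply Nat.mul_le_mul_right
    rw [card_univ, Fintype.card_perm]
    decide
  have hcard' : (S.card : ℝ) ≤ 6 * ((W : ℝ) ^ 6 * ((T : ℝ) ^ 6 * Z)) +
      2 * T * ((W : ℝ) ^ 6 * (G : ℝ) ^ 5) := by
    have h1 : (S.card : ℝ) ≤ ((6 * (W ^ 3 * (W ^ 3 * (T ^ 6 * Z))) +
      2 * T * (W ^ 3 * (W ^ 3 * G ^ 5)) : ℕ) : ℝ) := by exact_mod_cast hcard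
    refine h1.trans (le_of_eq ?_)
    push_cast
    ring
  have b1 : (W : ℝ) ^ 6 * ((T : ℝ) ^ 6 * Z) ≤ Cd ^ 6 * (Y : ℝ) ^ (2 / 3 - 7 / 1000 : ℝ) := by
    calc (W : ℝ) ^ 6 * ((T : ℝ) ^ 6 * Z) ≤ (Y : ℝ) ^ (24 / 10000 : ℝ) *
          ((Cd ^ 6 * (Y : ℝ) ^ (6 / 10000 : ℝ)) * (Y : ℝ) ^ (2 / 3 - 1 / 100 : ℝ)) := by gcongr
      _ = Cd ^ 6 * ((Y : ℝ) ^ (24 / 10000 : ℝ) * ((Y : ℝ) ^ (6 / 10000 : ℝ) *
          (Y : ℝ) ^ (2 / 3 - 1 / 100 : ℝ))) := by ring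
      _ = Cd ^ 6 * (Y : ℝ) ^ (2 / 3 - 7 / 1000 : ℝ) := by
        rw [← Real.rpow_add hy, ← Real.rpow_add hy]
        congr 2
        norm_num
  have b2 : 2 * (T : ℝ) * ((W : ℝ) ^ 6 * (G : ℝ) ^ 5) ≤
      2 * Cd * (Y : ℝ) ^ (2 / 3 - 7 / 1000 : ℝ) := by
    calc 2 * (T : ℝ) * ((W : ℝ) ^ 6 * (G : ℝ) ^ 5) ≤ 2 * (Cd * (Y : ℝ) ^ (1 / 10000 : ℝ)) *
          ((Y : ℝ) ^ (24 / 10000 : ℝ) * (Y : ℝ) ^ (59 / 100 : ℝ)) := by gcongr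
      _ = 2 * Cd * ((Y : ℝ) ^ (1 / 10000 : ℝ) *
          ((Y : ℝ) ^ (24 / 10000 : ℝ) * (Y : ℝ) ^ (59 / 100 : ℝ))) := by ring
      _ = 2 * Cd * (Y : ℝ) ^ (1 / 10000 + (24 / 10000 + 59 / 100) : ℝ) := by
        rw [← Real.rpow_add hy, ← Real.rpow_add hy]
      _ ≤ 2 * Cd * (Y : ℝ) ^ (2 / 3 - 7 / 1000 : ℝ) := by
        apply mul_le_mul_of_nonneg_left _ (by linarith)
        exact Real.rpow_le_rpow_of_exponent_le hy1.le (by norm_num)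
  have hp0 : 0 ≤ (Y : ℝ) ^ (2 / 3 - 7 / 1000 : ℝ) := by positivity
  calc (S.card : ℝ) ≤ 6 * (Cd ^ 6 * (Y : ℝ) ^ (2 / 3 - 7 / 1000 : ℝ)) +
        2 * Cd * (Y : ℝ) ^ (2 / 3 - 7 / 1000 : ℝ) := by linarith
    _ = (6 * Cd ^ 6 + 2 * Cd) * (Y : ℝ) ^ (2 / 3 - 7 / 1000 : ℝ) := by ring
    _ ≤ (Y : ℝ) ^ (1 / 1000 : ℝ) * (Y : ℝ) ^ (2 / 3 - 7 / 1000 : ℝ) :=
        mul_le_mul_of_nonneg_right hYl hp0
    _ = (Y : ℝ) ^ (2 / 3 - 6 / 1000 : ℝ) := by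
        rw [← Real.rpow_add hy]
        congr 1
        norm_num

end Pool.Agent.Lib.AbcD
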