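import Mathlib
import Pool.Agent.Lib.AbcD.GoodMain
import Pool.Agent.Lib.AbcG.Final
import Pool.Agent.Lib.AbcL.Ready
import Pool.Agent.Lib.AbcS.BoxF

/-!
# Pairs of abc-triples with the same radical: the bad triples
-/

set_option autoImplicit false

open Finset Filter

namespace Pool.Agent.Lib.AbcD

open Pool.Agent.Lib.AbcG

/-- The pairs `(a, b)` of abc-triples of radical at most `Y`. -/
def InF (Y : ℕ) (t : ℕ × ℕ) : Prop := 0 < t.1 ∧ 0 < t.2 ∧ t.1.Coprime t.2 ∧ rad (Nn t) ≤ Y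

theorem InF.swap {Y : ℕ} {t : ℕ × ℕ} (h : InF Y t) : InF Y t.swap :=
  ⟨h.2.1, h.1, h.2.2.1.symm, by rw [rd_swap]; exact h.2.2.2⟩

theorem Nn_ne {t : ℕ × ℕ} (h1 : 0 < t.1) (h2 : 0 < t.2) : Nn t ≠ 0 := by
  have := Nn_pos h1 h2
  omega

/-- Few triples have a given radical. -/
theorem partners (ε : ℝ) (hε : 0 < ε) : ∃ K : ℝ, 1 ≤ K ∧ ∀ (r : ℕ) (T : Finset (ℕ × ℕ)), 1 ≤ r →
    (∀ t ∈ T, 0 < t.1 ∧ 0 < t.2 ∧ t.1.Coprime t.2 ∧ rad (Nn t) = r) →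
    (T.card : ℝ) ≤ K * (r : ℝ) ^ ε := by
  obtain ⟨K, hK, h⟩ := Pool.Agent.Lib.AbcS.box_allF ε hε
  refine ⟨K, hK, ?_⟩
  intro r T hr hT
  have h1 := h r 1 1 1 T hr le_rfl le_rfl le_rfl (by
    intro t ht
    obtain ⟨a1, a2, a3, a4⟩ := hT t ht
    have hpf : (Nn t).primeFactors = r.primeFactors := by
      rw [← a4]
      unfold rad
      exact (Nat.primeFactors_prod (fun p hp => Nat.prime_of_mem_primeFactors hp)).symm
    have key : ∀ m : ℕ, m ∣ Nn t → Pool.Agent.Lib.AbcS.rF r.primeFactors m ≤ 1 := by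
      intro m hm
      unfold Pool.Agent.Lib.AbcS.rF
      have h2 : m.primeFactors \ r.primeFactors = ∅ := by
        rw [Finset.sdiff_eq_empty_iff_subset, ← hpf]
        exact Nat.primeFactors_mono hm (Nn_ne a1 a2)
      rw [h2, Finset.prod_empty]
    refine ⟨a1, a2, a3, key _ ?_, key _ ?_, key _ ?_⟩
    · exact ⟨t.2 * (t.1 + t.2), by unfold Nn; ring⟩
    · exact ⟨t.1 * (t.1 + t.2), by unfold Nn; ring⟩
    · exact ⟨t.1 * t.2, by unfold Nn; ring⟩)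
  have e : Pool.Agent.Lib.AbcB.DD 1 1 1 = 1 := by
    unfold Pool.Agent.Lib.AbcB.DD
    simp
  rw [e] at h1
  simpa using h1

theorem tail_gen (e : ℝ) (he : 0 < e) : ∃ κ : ℝ, 0 < κ ∧ ∀ᶠ n : ℕ in atTop,
    ∀ T : Finset (ℕ × ℕ), (∀ t ∈ T, InF n t ∧ (n : ℝ) ^ (1 / 3 + e : ℝ) < (t.1 : ℝ) + t.2) →
      (T.card : ℝ) ≤ (n : ℝ) ^ (2 / 3 - κ) := by
  classical
  obtain ⟨κ, hκ, hev⟩ := Pool.Agent.Lib.AbcL.almost_all e he
  refine ⟨κ / 2, by positivity, ?_⟩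
  have hlarge : ∀ᶠ Y : ℕ in atTop, (2 : ℝ) ≤ (Y : ℝ) ^ (κ / 2) := by
    have h1 : Tendsto (fun Y : ℕ => (Y : ℝ) ^ (κ / 2)) atTop atTop :=
      (tendsto_rpow_atTop (by linarith)).comp tendsto_natCast_atTop_atTop
    exact h1.eventually (eventually_ge_atTop 2)
  filter_upwards [hev, hlarge, eventually_ge_atTop 1] with n hn h2 hn1 T hT
  have hn0 : (0 : ℝ) < n := by exact_mod_cast (by omega : 0 < n)
  have hlog : ∀ t : ℕ × ℕ, (n : ℝ) ^ (1 / 3 + e : ℝ) < (t.1 : ℝ) + t.2 →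
      (1 / 3 + e) * Real.log n ≤ Real.log ((t.1 : ℝ) + t.2) := by
    intro t ht
    rw [← Real.log_rpow hn0]
    exact Real.log_le_log (by positivity) ht.le
  have h1 := hn (T.filter (fun t => t.1 ≤ t.2)) (by
    intro t ht
    rw [mem_filter] at ht
    obtain ⟨⟨a1, a2, a3, a4⟩, a5⟩ := hT t ht.1
    exact ⟨⟨a1, ht.2, a3⟩, a4, hlog t a5⟩)
  have h3 := hn ((T.filter (fun t => ¬ t.1 ≤ t.2)).image Prod.swap) (by
    intro t ht
    rw [mem_image] at ht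
    obtain ⟨s, hs, rfl⟩ := ht
    rw [mem_filter] at hs
    obtain ⟨⟨a1, a2, a3, a4⟩, a5⟩ := hT s hs.1
    refine ⟨⟨a2, ?_, a3.symm⟩, ?_, ?_⟩
    · simp only [Prod.fst_swap, Prod.snd_swap]
      omega
    · exact (rd_swap s).le.trans a4
    · have := hlog s a5
      unfold Pool.Agent.Lib.Pabc2.ht
      simp only [Prod.fst_swap, Prod.snd_swap]
      rw [add_comm (s.2 : ℝ)]
      exact this)
  rw [card_image_of_injective _ Prod.swap_injective] at h3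
  have hcard : (T.card : ℝ) = (T.filter (fun t => t.1 ≤ t.2)).card +
      (T.filter (fun t => ¬ t.1 ≤ t.2)).card := by
    exact_mod_cast (card_filter_add_card_filter_not (s := T) (fun t => t.1 ≤ t.2)).symm
  have h4 : (n : ℝ) ^ (2 / 3 - κ / 2) = (n : ℝ) ^ (κ / 2) * (n : ℝ) ^ (2 / 3 - κ) := by
    rw [← Real.rpow_add hn0]
    congr 1
    ring
  rw [h4, hcard]
  have h5 : 0 ≤ (n : ℝ) ^ (2 / 3 - κ) := by positivity
  nlinarith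

/-- The almost-all theorem in the form needed by the asymptotic formula. -/
theorem almostAll : AlmostAllHyp := by
  obtain ⟨κ, hκ, h⟩ := Pool.Agent.Lib.AbcL.almost_all (1 / 1000) (by norm_num)
  exact ⟨κ, hκ, h⟩

theorem F_finite (Y : ℕ) : {t : ℕ × ℕ | InF Y t}.Finite := pairs_finite (tailHyp_of almostAll) Y

/-- The asymptotic formula. -/
theorem asym : ∃ κ : ℝ, 0 < κ ∧ ∀ᶠ Y : ℕ in atTop, ∀ F : Finset (ℕ × ℕ),
    (∀ t : ℕ × ℕ, t ∈ F ↔ InF Y t) →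
    |(F.card : ℝ) - Cabc * (Y : ℝ) ^ (2 / 3 : ℝ)| ≤ (Y : ℝ) ^ (2 / 3 - κ) :=
  main (tailHyp_of almostAll)

/-- Few triples have a small radical. -/
theorem small_rad : ∀ᶠ Y : ℕ in atTop, ∀ T : Finset (ℕ × ℕ),
    (∀ t ∈ T, InF Y t ∧ (rad (Nn t) : ℝ) < (Y : ℝ) ^ (1 - 1 / 10000 : ℝ)) →
      (T.card : ℝ) ≤ (Y : ℝ) ^ (2 / 3 - 1 / 20000 : ℝ) := by
  classical
  obtain ⟨κ, hκ, hev⟩ := asym
  have hfl : Tendsto (fun Y : ℕ => ⌊(Y : ℝ) ^ (1 - 1 / 10000 : ℝ)⌋₊) atTop atTop :=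
    tendsto_nat_floor_atTop.comp ((tendsto_rpow_atTop (by norm_num)).comp
      tendsto_natCast_atTop_atTop)
  have hlarge : ∀ᶠ Y : ℕ in atTop, Cabc + 1 ≤ (Y : ℝ) ^ (1 / 60000 : ℝ) := by
    have h1 : Tendsto (fun Y : ℕ => (Y : ℝ) ^ (1 / 60000 : ℝ)) atTop atTop :=
      (tendsto_rpow_atTop (by norm_num)).comp tendsto_natCast_atTop_atTop
    exact h1.eventually (eventually_ge_atTop _)
  filter_upwards [hfl.eventually (hev.and (eventually_ge_atTop 1)), hlarge,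
    eventually_ge_atTop 1] with Y hY hl hY1 T hT
  obtain ⟨hY', hYp⟩ := hY
  have hy1 : (1 : ℝ) ≤ Y := by exact_mod_cast hY1
  have hy : (0 : ℝ) < Y := by linarith
  obtain ⟨Y', hYd⟩ : ∃ Y' : ℕ, Y' = ⌊(Y : ℝ) ^ (1 - 1 / 10000 : ℝ)⌋₊ := ⟨_, rfl⟩
  rw [← hYd] at hY' hYp
  have h1 := hY' (F_finite Y').toFinset (fun t => by
    rw [Set.Finite.mem_toFinset]; rfl)
  have hsub : T ⊆ (F_finite Y').toFinset := by
    intro t ht
    rw [Set.Finite.mem_toFinset]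
    obtain ⟨a1, a2⟩ := hT t ht
    refine ⟨a1.1, a1.2.1, a1.2.2.1, ?_⟩
    rw [hYd]
    exact Nat.le_floor a2.le
  have h2 : (T.card : ℝ) ≤ (F_finite Y').toFinset.card := by exact_mod_cast card_le_card hsub
  have hy' : (1 : ℝ) ≤ Y' := by exact_mod_cast hYp
  have h3 : (Y' : ℝ) ^ (2 / 3 - κ) ≤ (Y' : ℝ) ^ (2 / 3 : ℝ) :=
    Real.rpow_le_rpow_of_exponent_le hy' (by linarith)
  have h4 : (Y' : ℝ) ≤ (Y : ℝ) ^ (1 - 1 / 10000 : ℝ) := by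
    rw [hYd]
    exact Nat.floor_le (by positivity)
  have h5 : (Y' : ℝ) ^ (2 / 3 : ℝ) ≤ (Y : ℝ) ^ (2 / 3 - 1 / 15000 : ℝ) := by
    calc (Y' : ℝ) ^ (2 / 3 : ℝ) ≤ ((Y : ℝ) ^ (1 - 1 / 10000 : ℝ)) ^ (2 / 3 : ℝ) :=
          Real.rpow_le_rpow (by linarith) h4 (by norm_num)
      _ = (Y : ℝ) ^ (2 / 3 - 1 / 15000 : ℝ) := by
        rw [← Real.rpow_mul hy.le]
        congr 1
        norm_num
  have hC := Cabc_pos
  have h6 := (abs_le.1 h1).2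
  calc (T.card : ℝ) ≤ (Cabc + 1) * (Y' : ℝ) ^ (2 / 3 : ℝ) := by linarith
    _ ≤ (Y : ℝ) ^ (1 / 60000 : ℝ) * (Y : ℝ) ^ (2 / 3 - 1 / 15000 : ℝ) := by gcongr
    _ = (Y : ℝ) ^ (2 / 3 - 1 / 20000 : ℝ) := by
      rw [← Real.rpow_add hy]
      congr 1
      norm_num

/-- The bad triples are few. -/
theorem bad_few : ∃ κ : ℝ, 0 < κ ∧ κ ≤ 1 / 20000 ∧ ∀ᶠ Y : ℕ in atTop, ∀ T : Finset (ℕ × ℕ),
    (∀ t ∈ T, InF Y t ∧ ¬ Good Y t) → (T.card : ℝ) ≤ 2 * (Y : ℝ) ^ (2 / 3 - κ) := by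
  classical
  obtain ⟨κ, hκ, hev⟩ := tail_gen (1 / 10000) (by norm_num)
  refine ⟨min κ (1 / 20000), lt_min hκ (by norm_num), min_le_right _ _, ?_⟩
  filter_upwards [hev, small_rad, eventually_ge_atTop 1] with Y h1 h2 hY1 T hT
  have hy1 : (1 : ℝ) ≤ Y := by exact_mod_cast hY1
  have a1 := h1 (T.filter (fun t => (Y : ℝ) ^ (1 / 3 + 1 / 10000 : ℝ) < (t.1 : ℝ) + t.2)) (by
    intro t ht
    rw [mem_filter] at ht
    exact ⟨(hT t ht.1).1, ht.2⟩)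
  have a2 := h2 (T.filter (fun t => ¬ (Y : ℝ) ^ (1 / 3 + 1 / 10000 : ℝ) < (t.1 : ℝ) + t.2)) (by
    intro t ht
    rw [mem_filter] at ht
    refine ⟨(hT t ht.1).1, ?_⟩
    by_contra hcon
    apply (hT t ht.1).2
    obtain ⟨b1, b2, b3, b4⟩ := (hT t ht.1).1
    exact ⟨b1, b2, b3, b4, not_lt.1 hcon, not_lt.1 ht.2⟩)
  have hcard : (T.card : ℝ) =
      (T.filter (fun t => (Y : ℝ) ^ (1 / 3 + 1 / 10000 : ℝ) < (t.1 : ℝ) + t.2)).card +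
      (T.filter (fun t => ¬ (Y : ℝ) ^ (1 / 3 + 1 / 10000 : ℝ) < (t.1 : ℝ) + t.2)).card := by
    exact_mod_cast (card_filter_add_card_filter_not (s := T) _).symm
  have m1 : (Y : ℝ) ^ (2 / 3 - κ) ≤ (Y : ℝ) ^ (2 / 3 - min κ (1 / 20000)) :=
    Real.rpow_le_rpow_of_exponent_le hy1 (by linarith [min_le_left κ (1 / 20000 : ℝ)])
  have m2 : (Y : ℝ) ^ (2 / 3 - 1 / 20000 : ℝ) ≤ (Y : ℝ) ^ (2 / 3 - min κ (1 / 20000)) :=
    Real.rpow_le_rpow_of_exponent_le hy1 (by linarith [min_le_right κ (1 / 20000 : ℝ)])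
  linarith

end Pool.Agent.Lib.AbcD
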