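import Mathlib
import Pool.Agent.Lib.AbcD.Bad

/-!
# Almost every abc-triple is determined by its radical; the number of radicals
-/

set_option autoImplicit false

open Finset Filter

namespace Pool.Agent.Lib.AbcD

open Pool.Agent.Lib.AbcG

theorem rad_Nn_pos (t : ℕ × ℕ) : 1 ≤ rad (Nn t) := rad_pos _

/-- Few pairs of essentially different triples have the same radical. -/
theorem pairs_few : ∃ κ : ℝ, 0 < κ ∧ ∀ᶠ Y : ℕ in atTop, ∀ S : Finset ((ℕ × ℕ) × (ℕ × ℕ)),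
    (∀ p ∈ S, InF Y p.1 ∧ InF Y p.2 ∧ SameRad p) → (S.card : ℝ) ≤ (Y : ℝ) ^ (2 / 3 - κ) := by
  classical
  obtain ⟨κ, hκ, hκ2, hbad⟩ := bad_few
  obtain ⟨K, hK, hpart⟩ := partners (κ / 2) (by positivity)
  refine ⟨κ / 4, by positivity, ?_⟩
  have hlarge : ∀ᶠ Y : ℕ in atTop, 1 + 4 * K ≤ (Y : ℝ) ^ (κ / 4) := by
    have h1 : Tendsto (fun Y : ℕ => (Y : ℝ) ^ (κ / 4)) atTop atTop :=
      (tendsto_rpow_atTop (by positivity)).comp tendsto_natCast_atTop_atTop
    exact h1.eventually (eventually_ge_atTop _)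
  filter_upwards [hbad, good_pairs, hlarge, eventually_ge_atTop 1] with Y hb hg hl hY1 S hS
  have hy1 : (1 : ℝ) ≤ Y := by exact_mod_cast hY1
  have hy : (0 : ℝ) < Y := by linarith
  -- the bad parts
  have key : ∀ (f g : (ℕ × ℕ) × (ℕ × ℕ) → ℕ × ℕ), (∀ p, p = (f p, g p) ∨ p = (g p, f p)) →
      (∀ p ∈ S, InF Y (f p) ∧ InF Y (g p) ∧ rad (Nn (f p)) = rad (Nn (g p))) →
      (∀ p q, f p = f q → g p = g q → p = q) →
      ((S.filter (fun p => ¬ Good Y (f p))).card : ℝ) ≤ 2 * K * (Y : ℝ) ^ (2 / 3 - κ / 2) := by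
    intro f g _ hfg hinj
    obtain ⟨B, hB⟩ : ∃ B : Finset (ℕ × ℕ), B = (S.filter (fun p => ¬ Good Y (f p))).image f :=
      ⟨_, rfl⟩
    have hBc : (B.card : ℝ) ≤ 2 * (Y : ℝ) ^ (2 / 3 - κ) := by
      apply hb
      intro t ht
      rw [hB] at ht
      obtain ⟨p, hp, rfl⟩ := mem_image.1 ht
      rw [mem_filter] at hp
      exact ⟨(hfg p hp.1).1, hp.2⟩
    have hfib : ∀ t ∈ B, ((((S.filter (fun p => ¬ Good Y (f p))).filter
        (fun p => f p = t)).card : ℕ) : ℝ) ≤ K * (Y : ℝ) ^ (κ / 2) := by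
      intro t ht
      rw [hB] at ht
      obtain ⟨p0, hp0, rfl⟩ := mem_image.1 ht
      rw [mem_filter] at hp0
      obtain ⟨Q, hQ⟩ : ∃ Q, Q = (S.filter (fun p => ¬ Good Y (f p))).filter
        (fun p => f p = f p0) := ⟨_, rfl⟩
      rw [← hQ]
      have hQi : Set.InjOn g (Q : Set _) := by
        intro p hp q hq h
        rw [Finset.mem_coe, hQ, mem_filter] at hp hq
        exact hinj p q (hp.2.trans hq.2.symm) h
      rw [← card_image_of_injOn hQi]
      refine (hpart (rad (Nn (f p0))) (Q.image g) (rad_pos _) ?_).trans ?_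
      · intro t ht
        obtain ⟨p, hp, rfl⟩ := mem_image.1 ht
        rw [hQ, mem_filter, mem_filter] at hp
        obtain ⟨a1, a2, a3⟩ := hfg p hp.1.1
        obtain ⟨b1, b2, b3, b4⟩ := a2
        exact ⟨b1, b2, b3, by rw [← a3, hp.2]⟩
      · have h1 : (rad (Nn (f p0)) : ℝ) ≤ Y := by
          exact_mod_cast (hfg p0 hp0.1).1.2.2.2
        have h2 : (rad (Nn (f p0)) : ℝ) ^ (κ / 2) ≤ (Y : ℝ) ^ (κ / 2) :=
          Real.rpow_le_rpow (Nat.cast_nonneg _) h1 (by positivity)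
        exact mul_le_mul_of_nonneg_left h2 (by linarith)
    have hsum : ((S.filter (fun p => ¬ Good Y (f p))).card : ℝ) =
        ∑ t ∈ B, ((((S.filter (fun p => ¬ Good Y (f p))).filter
        (fun p => f p = t)).card : ℕ) : ℝ) := by
      rw [← Nat.cast_sum]
      norm_cast
      apply Finset.card_eq_sum_card_fiberwise
      intro p hp
      rw [hB]
      exact Finset.mem_coe.2 (mem_image_of_mem _ hp)
    rw [hsum]
    refine (sum_le_sum hfib).trans ?_
    rw [sum_const, nsmul_eq_mul]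
    calc (B.card : ℝ) * (K * (Y : ℝ) ^ (κ / 2)) ≤
          (2 * (Y : ℝ) ^ (2 / 3 - κ)) * (K * (Y : ℝ) ^ (κ / 2)) := by gcongr
      _ = 2 * K * ((Y : ℝ) ^ (2 / 3 - κ) * (Y : ℝ) ^ (κ / 2)) := by ring
      _ = 2 * K * (Y : ℝ) ^ (2 / 3 - κ / 2) := by
        rw [← Real.rpow_add hy]
        congr 2
        ring
  have k1 := key Prod.fst Prod.snd (fun p => Or.inl rfl)
    (fun p hp => ⟨(hS p hp).1, (hS p hp).2.1, (hS p hp).2.2.1⟩) (fun p q h1 h2 => Prod.ext h1 h2)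
  have k2 := key Prod.snd Prod.fst (fun p => Or.inr rfl)
    (fun p hp => ⟨(hS p hp).2.1, (hS p hp).1, (hS p hp).2.2.1.symm⟩)
    (fun p q h1 h2 => Prod.ext h2 h1)
  have k3 := hg (S.filter (fun p => Good Y p.1 ∧ Good Y p.2)) (by
    intro p hp
    rw [mem_filter] at hp
    exact ⟨hp.2.1, hp.2.2, (hS p hp.1).2.2⟩)
  have hcover : S ⊆ S.filter (fun p => Good Y p.1 ∧ Good Y p.2) ∪
      (S.filter (fun p => ¬ Good Y p.1) ∪ S.filter (fun p => ¬ Good Y p.2)) := by
    intro p hp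
    rw [mem_union, mem_union, mem_filter, mem_filter, mem_filter]
    tauto
  have hc : (S.card : ℝ) ≤ (S.filter (fun p => Good Y p.1 ∧ Good Y p.2)).card +
      ((S.filter (fun p => ¬ Good Y p.1)).card + (S.filter (fun p => ¬ Good Y p.2)).card) := by
    have h1 := card_le_card hcover
    have h2 := card_union_le (S.filter (fun p => Good Y p.1 ∧ Good Y p.2))
      (S.filter (fun p => ¬ Good Y p.1) ∪ S.filter (fun p => ¬ Good Y p.2))
    have h3 := card_union_le (S.filter (fun p => ¬ Good Y p.1)) (S.filter (fun p => ¬ Good Y p.2))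
    exact_mod_cast h1.trans (h2.trans (Nat.add_le_add_left h3 _))
  have m1 : (Y : ℝ) ^ (2 / 3 - 6 / 1000 : ℝ) ≤ (Y : ℝ) ^ (2 / 3 - κ / 2) :=
    Real.rpow_le_rpow_of_exponent_le hy1 (by linarith)
  have hp0 : 0 ≤ (Y : ℝ) ^ (2 / 3 - κ / 2) := by positivity
  calc (S.card : ℝ) ≤ (1 + 4 * K) * (Y : ℝ) ^ (2 / 3 - κ / 2) := by linarith
    _ ≤ (Y : ℝ) ^ (κ / 4) * (Y : ℝ) ^ (2 / 3 - κ / 2) := mul_le_mul_of_nonneg_right hl hp0
    _ = (Y : ℝ) ^ (2 / 3 - κ / 4) := by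
      rw [← Real.rpow_add hy]
      congr 1
      ring

/-- The triples which share their radical with an essentially different triple. -/
def Shared (t : ℕ × ℕ) : Prop := ∃ t' : ℕ × ℕ, 0 < t'.1 ∧ 0 < t'.2 ∧ t'.1.Coprime t'.2 ∧
  SameRad (t, t')

theorem shared_few : ∃ κ : ℝ, 0 < κ ∧ ∀ᶠ Y : ℕ in atTop, ∀ T : Finset (ℕ × ℕ),
    (∀ t ∈ T, InF Y t ∧ Shared t) → (T.card : ℝ) ≤ (Y : ℝ) ^ (2 / 3 - κ) := by
  classical
  obtain ⟨κ, hκ, hev⟩ := pairs_few
  refine ⟨κ, hκ, ?_⟩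
  filter_upwards [hev] with Y hY T hT
  have hex : ∀ t : ℕ × ℕ, ∃ t' : ℕ × ℕ, t ∈ T → 0 < t'.1 ∧ 0 < t'.2 ∧ t'.1.Coprime t'.2 ∧
      SameRad (t, t') := by
    intro t
    by_cases ht : t ∈ T
    · obtain ⟨t', h⟩ := (hT t ht).2
      exact ⟨t', fun _ => h⟩
    · exact ⟨t, fun h => absurd h ht⟩
  choose φ hφ using hex
  have hinj : Function.Injective (fun t : ℕ × ℕ => (t, φ t)) := by
    intro t t' h
    exact congrArg Prod.fst h
  rw [← card_image_of_injective T hinj]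
  apply hY
  intro p hp
  obtain ⟨t, ht, rfl⟩ := mem_image.1 hp
  obtain ⟨a1, a2, a3, a4⟩ := hφ t ht
  refine ⟨(hT t ht).1, ⟨a1, a2, a3, ?_⟩, a4⟩
  have h1 : rad (Nn t) = rad (Nn (φ t)) := a4.1
  show rad (Nn (φ t)) ≤ Y
  rw [← h1]
  exact (hT t ht).1.2.2.2

theorem swap_ne {t : ℕ × ℕ} (h3 : t.1.Coprime t.2) (h : rad (Nn t) ≠ 2) : t.swap ≠ t := by
  intro e
  apply h
  obtain ⟨a, b⟩ := t
  simp only [Prod.swap_prod_mk, Prod.mk.injEq] at e
  obtain ⟨e1, -⟩ := e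
  subst e1
  simp only at h3
  rw [Nat.coprime_self] at h3
  subst h3
  unfold rad Nn
  norm_num [Nat.primeFactors]

/-- The number of radicals. -/
theorem count_radicals : ∃ κ : ℝ, 0 < κ ∧ ∀ᶠ Y : ℕ in atTop, ∀ F : Finset (ℕ × ℕ),
    (∀ t : ℕ × ℕ, t ∈ F ↔ InF Y t) →
    |((F.image (fun t => rad (Nn t))).card : ℝ) - Cabc / 2 * (Y : ℝ) ^ (2 / 3 : ℝ)| ≤
      (Y : ℝ) ^ (2 / 3 - κ) := by
  classical
  obtain ⟨κ1, hκ1, hasym⟩ := asym
  obtain ⟨κ2, hκ2, hsh⟩ := shared_few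
  obtain ⟨κ, hκ⟩ : ∃ κ : ℝ, κ = min (min κ1 κ2) (1 / 3) := ⟨_, rfl⟩
  have hκ0 : 0 < κ := by rw [hκ]; exact lt_min (lt_min hκ1 hκ2) (by norm_num)
  have l1 : κ ≤ κ1 := by rw [hκ]; exact (min_le_left _ _).trans (min_le_left _ _)
  have l2 : κ ≤ κ2 := by rw [hκ]; exact (min_le_left _ _).trans (min_le_right _ _)
  have l3 : κ ≤ 1 / 3 := by rw [hκ]; exact min_le_right _ _
  refine ⟨κ / 2, by positivity, ?_⟩
  have hlarge : ∀ᶠ Y : ℕ in atTop, (2 : ℝ) ≤ (Y : ℝ) ^ (κ / 2) := by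
    have h1 : Tendsto (fun Y : ℕ => (Y : ℝ) ^ (κ / 2)) atTop atTop :=
      (tendsto_rpow_atTop (by positivity)).comp tendsto_natCast_atTop_atTop
    exact h1.eventually (eventually_ge_atTop _)
  filter_upwards [hasym, hsh, hlarge, eventually_ge_atTop 1] with Y ha hs hl hY1 F hF
  have hy1 : (1 : ℝ) ≤ Y := by exact_mod_cast hY1
  have hy : (0 : ℝ) < Y := by linarith
  obtain ⟨ρ, hρ⟩ : ∃ ρ : ℕ × ℕ → ℕ, ρ = fun t => rad (Nn t) := ⟨_, rfl⟩
  obtain ⟨R, hR⟩ : ∃ R : Finset ℕ, R = F.image ρ := ⟨_, rfl⟩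
  obtain ⟨Sh, hSh⟩ : ∃ Sh : Finset (ℕ × ℕ), Sh = F.filter Shared := ⟨_, rfl⟩
  have hShc := hs Sh (by
    intro t ht
    rw [hSh, mem_filter] at ht
    exact ⟨(hF t).1 ht.1, ht.2⟩)
  have hFsum : F.card = ∑ r ∈ R, (F.filter (fun t => ρ t = r)).card := by
    apply Finset.card_eq_sum_card_fiberwise
    intro p hp
    rw [hR]
    exact Finset.mem_coe.2 (mem_image_of_mem _ hp)
  -- lower bound
  have hlow : 2 * R.card ≤ F.card + 1 := by
    have h1 : ∀ r ∈ R.erase 2, 2 ≤ (F.filter (fun t => ρ t = r)).card := by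
      intro r hr
      rw [mem_erase, hR] at hr
      obtain ⟨t, ht, hr1⟩ := mem_image.1 hr.2
      have hne : rad (Nn t) ≠ 2 := by
        intro h
        apply hr.1
        rw [← hr1, hρ]
        exact h
      have hInF := (hF t).1 ht
      have h2 : ({t, t.swap} : Finset (ℕ × ℕ)) ⊆ F.filter (fun t => ρ t = r) := by
        intro u hu
        rw [mem_insert, mem_singleton] at hu
        rw [mem_filter]
        rcases hu with rfl | rfl
        · exact ⟨ht, hr1⟩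
        · refine ⟨(hF _).2 hInF.swap, ?_⟩
          rw [← hr1, hρ]
          exact rd_swap t
      have h3 : ({t, t.swap} : Finset (ℕ × ℕ)).card = 2 :=
        card_pair (swap_ne hInF.2.2.1 hne).symm
      rw [← h3]
      exact card_le_card h2
    have h4 : 2 * (R.erase 2).card ≤ ∑ r ∈ R.erase 2, (F.filter (fun t => ρ t = r)).card := by
      have := Finset.card_nsmul_le_sum (R.erase 2) (fun r => (F.filter (fun t => ρ t = r)).card) 2 h1
      rw [smul_eq_mul] at this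
      omega
    by_cases h2 : 2 ∈ R
    · have h5 : (F.filter (fun t => ρ t = 2)).card + ∑ r ∈ R.erase 2,
          (F.filter (fun t => ρ t = r)).card = F.card := by
        rw [hFsum]
        exact Finset.add_sum_erase R (fun r => (F.filter (fun t => ρ t = r)).card) h2
      have h6 : 1 ≤ (F.filter (fun t => ρ t = 2)).card := by
        rw [Nat.one_le_iff_ne_zero, Finset.card_ne_zero]
        rw [hR] at h2
        obtain ⟨t, ht, hr1⟩ := mem_image.1 h2
        exact ⟨t, mem_filter.2 ⟨ht, hr1⟩⟩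
      have h7 : (R.erase 2).card + 1 = R.card := Finset.card_erase_add_one h2
      omega
    · rw [Finset.erase_eq_of_notMem h2] at h4
      rw [← hFsum] at h4
      omega
  -- upper bound
  have hup : F.card ≤ 2 * R.card + Sh.card := by
    have h1 : ∀ r ∈ R, (F.filter (fun t => ρ t = r)).card ≤
        2 + (Sh.filter (fun t => ρ t = r)).card := by
      intro r _
      by_cases h : ∃ t ∈ F.filter (fun t => ρ t = r), ¬ Shared t
      · obtain ⟨t, ht, hns⟩ := h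
        rw [mem_filter] at ht
        have h2 : F.filter (fun t => ρ t = r) ⊆ ({t, t.swap} : Finset (ℕ × ℕ)) := by
          intro u hu
          rw [mem_filter] at hu
          rw [mem_insert, mem_singleton]
          by_contra hcon
          push Not at hcon
          apply hns
          obtain ⟨b1, b2, b3, b4⟩ := (hF u).1 hu.1
          refine ⟨u, b1, b2, b3, ?_, hcon.1, hcon.2⟩
          have e1 : rad (Nn t) = r := by rw [← ht.2, hρ]
          have e2 : rad (Nn u) = r := by rw [← hu.2, hρ]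
          show rad (Nn t) = rad (Nn u)
          rw [e1, e2]
        have h3 := card_le_card h2
        have h4 : ({t, t.swap} : Finset (ℕ × ℕ)).card ≤ 2 := Finset.card_le_two
        omega
      · push Not at h
        have h2 : F.filter (fun t => ρ t = r) ⊆ Sh.filter (fun t => ρ t = r) := by
          intro u hu
          have h3 := h u hu
          rw [mem_filter] at hu ⊢
          rw [hSh, mem_filter]
          exact ⟨⟨hu.1, h3⟩, hu.2⟩
        have h3 := card_le_card h2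
        omega
    have h5 : Sh.card = ∑ r ∈ R, (Sh.filter (fun t => ρ t = r)).card := by
      apply Finset.card_eq_sum_card_fiberwise
      intro p hp
      rw [hR]
      rw [Finset.mem_coe, hSh, mem_filter] at hp
      exact Finset.mem_coe.2 (mem_image_of_mem _ hp.1)
    rw [hFsum, h5]
    refine (sum_le_sum h1).trans ?_
    rw [sum_add_distrib, sum_const, smul_eq_mul, mul_comm]
  have ha' := abs_le.1 (ha F hF)
  have hlow' : 2 * (R.card : ℝ) ≤ F.card + 1 := by exact_mod_cast hlow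
  have hup' : (F.card : ℝ) ≤ 2 * R.card + Sh.card := by exact_mod_cast hup
  have m1 : (Y : ℝ) ^ (2 / 3 - κ1) ≤ (Y : ℝ) ^ (2 / 3 - κ) :=
    Real.rpow_le_rpow_of_exponent_le hy1 (by linarith)
  have m2 : (Y : ℝ) ^ (2 / 3 - κ2) ≤ (Y : ℝ) ^ (2 / 3 - κ) :=
    Real.rpow_le_rpow_of_exponent_le hy1 (by linarith)
  have m3 : 1 ≤ (Y : ℝ) ^ (2 / 3 - κ) := Real.one_le_rpow hy1 (by linarith)
  have m4 : 2 * (Y : ℝ) ^ (2 / 3 - κ) ≤ (Y : ℝ) ^ (2 / 3 - κ / 2) := by
    have e : (Y : ℝ) ^ (2 / 3 - κ / 2) = (Y : ℝ) ^ (κ / 2) * (Y : ℝ) ^ (2 / 3 - κ) := by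
      rw [← Real.rpow_add hy]
      congr 1
      ring
    rw [e]
    exact mul_le_mul_of_nonneg_right hl (by positivity)
  show |((F.image (fun t => rad (Nn t))).card : ℝ) - Cabc / 2 * (Y : ℝ) ^ (2 / 3 : ℝ)| ≤ _
  have eR : F.image (fun t => rad (Nn t)) = R := by rw [hR, hρ]
  rw [eR, abs_le]
  constructor <;> linarith [ha'.1, ha'.2]

end Pool.Agent.Lib.AbcD
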